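import Pool.Agent.PLap94.Two

open MeasureTheory Set Metric Filter Topology
open scoped ENNReal ContDiff

namespace Pool.Agent.PLap94.Final

open Pool.Agent.PLap94

/-- The usual norm of the Euclidean plane `E2` (Mathlib's, under a short name). -/
noncomputable instance nE2 : NormedAddCommGroup E2 := PiLp.normedAddCommGroup 2 fun _ : Fin 2 => ℝ

/-- `L^p(Ω)`, for the open unit square `Ω`. -/
def LpS (p : ℝ) : Type := Lp ℝ (ENNReal.ofReal p) μS

/-- `L^p(Ω; ℝ²)`. -/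
def LpV (p : ℝ) : Type := Lp E2 (ENNReal.ofReal p) μS

/-- The `L^p` norm on `L^p(Ω)` (Mathlib's). -/
noncomputable instance normS (p : ℝ) [Fact (1 < p)] : NormedAddCommGroup (LpS p) :=
  Lp.instNormedAddCommGroup (α := E2) (E := ℝ) (p := ENNReal.ofReal p) (μ := μS)

/-- The `L^p` norm on `L^p(Ω; ℝ²)` (Mathlib's). -/
noncomputable instance normV (p : ℝ) [Fact (1 < p)] : NormedAddCommGroup (LpV p) :=
  Lp.instNormedAddCommGroup (α := E2) (E := E2) (p := ENNReal.ofReal p) (μ := μS)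

/-- An element of `L^p(Ω)` as a function (defined up to null sets). -/
noncomputable def fnS {p : ℝ} (u : LpS p) : E2 → ℝ :=
  (show Lp ℝ (ENNReal.ofReal p) μS from u)

/-- An element of `L^p(Ω; ℝ²)` as a function (defined up to null sets). -/
noncomputable def fnV {p : ℝ} (u : LpV p) : E2 → E2 :=
  (show Lp E2 (ENNReal.ofReal p) μS from u)

/-- The Banach space `L^p(Ω) × L^p(Ω; ℝ²)` of pairs `(u, g)`. -/
abbrev PairSpace (p : ℝ) : Type := LpS p × LpV p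

/-- The Sobolev space `W_0^{1,p}(Ω)`: a function `u` is represented by the pair `(u, ∇u)`, and
`W_0^{1,p}(Ω)` is the closure of `{(φ, ∇φ) : φ ∈ C_c^∞(Ω)}` in `L^p(Ω) × L^p(Ω; ℝ²)`. -/
def W0 (p : ℝ) [Fact (1 < p)] : Set (PairSpace p) :=
  closure {w | ∃ φ : E2 → ℝ, IsTest φ ∧ fnS w.1 =ᵐ[μS] φ ∧ fnV w.2 =ᵐ[μS] gradient φ}

/-- The Dirichlet energy `∫_Ω |∇u|^p`. -/
noncomputable def energy (p : ℝ) (w : PairSpace p) : ℝ≥0∞ := ∫⁻ x, ‖fnV w.2 x‖ₑ ^ p ∂μS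

/-- The sphere `S = {u ∈ W_0^{1,p}(Ω) : ∫_Ω |u|^p = 1}`. -/
def sphereS (p : ℝ) [Fact (1 < p)] : Set (PairSpace p) :=
  {w | w ∈ W0 p ∧ ∫⁻ x, ‖fnS w.1 x‖ₑ ^ p ∂μS = 1}

/-- The admissible sets in the definition of `λ_k`: nonempty compact sets `A ⊆ S` with
`A = -A` and genus at least `k`. -/
def Admissible (p : ℝ) [Fact (1 < p)] (k : ℕ) (A : Set (PairSpace p)) : Prop :=
  A ⊆ sphereS p ∧ IsCompact A ∧ A.Nonempty ∧ (∀ w, w ∈ A ↔ -w ∈ A) ∧ (k : ℕ∞) ≤ genus A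

/-- The variational eigenvalue `λ_k(p; Ω)` of the `p`-Laplacian on the unit square. -/
noncomputable def eigenvalue (k : ℕ) (p : ℝ) [Fact (1 < p)] : ℝ≥0∞ :=
  ⨅ (A : Set (PairSpace p)) (_ : Admissible p k A), ⨆ w ∈ A, energy p w

theorem eigenvalue_eq (k : ℕ) (p : ℝ) [Fact (1 < p)] :
    eigenvalue k p = Pool.Agent.PLap94.eigenvalue k p := rfl

theorem eigenvalue_two_lt_three {p : ℝ} [Fact (1 < p)] (hp : 300 ≤ p) :
    eigenvalue 2 p < eigenvalue 3 p := by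
  rw [eigenvalue_eq, eigenvalue_eq]
  exact Pool.Agent.PLap94.eigenvalue_two_lt_three hp

end Pool.Agent.PLap94.Final
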