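import Pool.Agent.PLap94.LpPart

open MeasureTheory Set Metric Filter Topology
open scoped ENNReal ContDiff

namespace Pool.Agent.PLap94

/-- a smooth version of `max (t, 0)` -/
noncomputable def softPos (t : ℝ) : ℝ := ∫ s in (0 : ℝ)..t, Real.smoothTransition (s / 0.0001)

lemma cont_st : Continuous (fun s : ℝ => Real.smoothTransition (s / 0.0001)) :=
  Real.smoothTransition.continuous.comp (by fun_prop)

lemma softPos_hasDeriv (t : ℝ) :
    HasDerivAt softPos (Real.smoothTransition (t / 0.0001)) t :=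
  (cont_st.integral_hasStrictDerivAt 0 t).hasDerivAt

lemma softPos_contDiff : ContDiff ℝ ∞ softPos := by
  rw [contDiff_infty_iff_deriv]
  refine ⟨fun t => (softPos_hasDeriv t).differentiableAt, ?_⟩
  have : deriv softPos = fun t => Real.smoothTransition (t / 0.0001) := by
    ext t
    exact (softPos_hasDeriv t).deriv
  rw [this]
  exact Real.smoothTransition.contDiff.comp (by fun_prop)

lemma softPos_of_nonpos {t : ℝ} (ht : t ≤ 0) : softPos t = 0 := by
  unfold softPos
  rw [intervalIntegral.integral_symm]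
  have : ∫ s in t..0, Real.smoothTransition (s / 0.0001) = ∫ s in t..0, (0 : ℝ) := by
    apply intervalIntegral.integral_congr
    intro s hs
    rw [uIcc_of_le ht] at hs
    exact Real.smoothTransition.zero_of_nonpos (div_nonpos_of_nonpos_of_nonneg hs.2 (by norm_num))
  rw [this]
  simp

lemma softPos_lip (a b : ℝ) : |softPos a - softPos b| ≤ |a - b| := by
  have := Convex.norm_image_sub_le_of_norm_hasDerivWithin_le (f := softPos)
    (f' := fun t => Real.smoothTransition (t / 0.0001)) (C := 1) (s := univ)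
    (fun t _ => (softPos_hasDeriv t).hasDerivWithinAt)
    (fun t _ => by
      rw [Real.norm_of_nonneg (Real.smoothTransition.nonneg _)]
      exact Real.smoothTransition.le_one _) convex_univ (mem_univ b) (mem_univ a)
  simpa using this

lemma softPos_lower (t : ℝ) : t - 0.0001 ≤ softPos t := by
  have hmono : Monotone (fun t => softPos t) := by
    apply monotone_of_deriv_nonneg (fun t => (softPos_hasDeriv t).differentiableAt)
    intro t
    rw [(softPos_hasDeriv t).deriv]
    exact Real.smoothTransition.nonneg _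
  rcases le_total t 0.0001 with h | h
  · rcases le_total t 0 with h0 | h0
    · rw [softPos_of_nonpos h0]; linarith
    · have := hmono h0
      simp only at this
      rw [softPos_of_nonpos le_rfl] at this
      linarith
  · have h1 : MonotoneOn (fun t => softPos t - t) (Icc 0.0001 t) := by
      apply monotoneOn_of_deriv_nonneg (convex_Icc _ _)
      · exact (softPos_contDiff.continuous.sub continuous_id).continuousOn
      · intro x hx
        exact ((softPos_hasDeriv x).sub (hasDerivAt_id x)).differentiableAt.differentiableWithinAt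
      · intro x hx
        rw [interior_Icc] at hx
        have e : HasDerivAt (fun t => softPos t - t)
            (Real.smoothTransition (x / 0.0001) - 1) x := (softPos_hasDeriv x).sub (hasDerivAt_id x)
        rw [e.deriv,
          Real.smoothTransition.one_of_one_le (by rw [one_le_div (by norm_num)]; exact hx.1.le)]
        simp
    have h2 := h1 (left_mem_Icc.2 h) (right_mem_Icc.2 h) h
    simp only at h2
    have h3 : 0 ≤ softPos 0.0001 := by
      have := hmono (show (0 : ℝ) ≤ 0.0001 by norm_num)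
      simp only at this
      rwa [softPos_of_nonpos le_rfl] at this
    linarith

/-- the slope `2 + √2` -/
noncomputable def Lc : ℝ := 2 + √2

/-- the radius `1 / (2 + √2)` of the two largest disjoint equal discs in the square -/
noncomputable def rc : ℝ := 1 - √2 / 2

lemma sqrt2_sq : √2 * √2 = 2 := Real.mul_self_sqrt (by norm_num)
lemma sqrt2_lb : 1.4142 < √2 := by
  rw [show (1.4142 : ℝ) = √(1.4142 ^ 2) by rw [Real.sqrt_sq (by norm_num)]]
  exact Real.sqrt_lt_sqrt (by norm_num) (by norm_num)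
lemma sqrt2_ub : √2 < 1.41422 := by
  rw [show (1.41422 : ℝ) = √(1.41422 ^ 2) by rw [Real.sqrt_sq (by norm_num)]]
  exact Real.sqrt_lt_sqrt (by norm_num) (by norm_num)

lemma Lc_mul_rc : Lc * rc = 1 := by
  unfold Lc rc
  have := sqrt2_sq
  nlinarith

lemma Lc_pos : 0 < Lc := by unfold Lc; positivity
lemma Lc_ub : Lc < 3.41422 := by
  unfold Lc; have := sqrt2_ub; norm_num at this ⊢; linarith
lemma rc_pos : 0 < rc := by
  unfold rc; have := sqrt2_ub; norm_num at this ⊢; linarith
lemma rc_lt : rc < 0.293 := by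
  unfold rc; have := sqrt2_lb; norm_num at this ⊢; linarith

/-- regularised distance -/
noncomputable def rdist (c x : E2) : ℝ := √(‖x - c‖ ^ 2 + 0.0002 ^ 2)

lemma rdist_lip (c x y : E2) : |rdist c x - rdist c y| ≤ ‖x - y‖ := by
  have key : ∀ a b : ℝ, 0 ≤ a → 0 ≤ b →
      √(a ^ 2 + 0.0002 ^ 2) - √(b ^ 2 + 0.0002 ^ 2) ≤ |a - b| := by
    intro a b ha hb
    rw [sub_le_iff_le_add]
    apply Real.sqrt_le_iff.2
    refine ⟨by positivity, ?_⟩
    have h1 : b ≤ √(b ^ 2 + 0.0002 ^ 2) := by
      apply Real.le_sqrt_of_sq_le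
      norm_num
    have h2 : √(b ^ 2 + 0.0002 ^ 2) ^ 2 = b ^ 2 + 0.0002 ^ 2 := Real.sq_sqrt (by positivity)
    have h3 : a - b ≤ |a - b| := le_abs_self _
    have h4 : |a - b| ^ 2 = (a - b) ^ 2 := sq_abs _
    have h5 := abs_nonneg (a - b)
    have h6 : |a - b| * b ≤ |a - b| * √(b ^ 2 + 0.0002 ^ 2) :=
      mul_le_mul_of_nonneg_left h1 h5
    have h7 : (a - b) * b ≤ |a - b| * b := mul_le_mul_of_nonneg_right h3 hb
    nlinarith
  have h1 := key ‖x - c‖ ‖y - c‖ (norm_nonneg _) (norm_nonneg _)
  have h2 := key ‖y - c‖ ‖x - c‖ (norm_nonneg _) (norm_nonneg _)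
  have h3 : |‖x - c‖ - ‖y - c‖| ≤ ‖x - y‖ := by
    have := abs_norm_sub_norm_le (x - c) (y - c)
    rwa [sub_sub_sub_cancel_right] at this
  rw [abs_sub_comm] at h2
  unfold rdist
  rw [abs_le]
  constructor <;> linarith

lemma rdist_contDiff (c : E2) : ContDiff ℝ ∞ (rdist c) := by
  unfold rdist
  apply ContDiff.sqrt
  · exact ((contDiff_norm_sq ℝ).comp (contDiff_id.sub contDiff_const)).add contDiff_const
  · intro x
    positivity

/-- the bump function: a smoothed cone of slope `2 + √2` -/
noncomputable def bump (c x : E2) : ℝ := softPos (1 - Lc * rdist c x)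

lemma bump_contDiff (c : E2) : ContDiff ℝ ∞ (bump c) := by
  unfold bump
  exact softPos_contDiff.comp (contDiff_const.sub (contDiff_const.mul (rdist_contDiff c)))

lemma bump_lip (c x y : E2) : |bump c x - bump c y| ≤ Lc * ‖x - y‖ := by
  refine (softPos_lip _ _).trans ?_
  rw [show 1 - Lc * rdist c x - (1 - Lc * rdist c y) = -(Lc * (rdist c x - rdist c y)) by ring,
    abs_neg, abs_mul, abs_of_pos Lc_pos]
  exact mul_le_mul_of_nonneg_left (rdist_lip c x y) Lc_pos.le

lemma norm_fderiv_bump (c x : E2) : ‖fderiv ℝ (bump c) x‖ ≤ Lc := by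
  have := norm_fderiv_le_of_lipschitz ℝ (f := bump c) (x₀ := x) (C := ⟨Lc, Lc_pos.le⟩)
    (LipschitzWith.of_dist_le_mul fun x y => by
      rw [dist_eq_norm, dist_eq_norm, Real.norm_eq_abs]
      exact bump_lip c x y)
  exact this

/-- a closed set which contains the support -/
def core (c : E2) : Set E2 := {x | ‖x - c‖ ^ 2 + 0.0002 ^ 2 ≤ rc ^ 2}

lemma isClosed_core (c : E2) : IsClosed (core c) := by
  unfold core
  exact isClosed_le (by fun_prop) continuous_const

lemma core_sub (c : E2) : core c ⊆ closedBall c 1 := by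
  intro x hx
  have h1 : ‖x - c‖ ^ 2 + 0.0002 ^ 2 ≤ rc ^ 2 := hx
  have h2 := rc_lt
  have h3 := rc_pos
  rw [mem_closedBall, dist_eq_norm]
  norm_num at h2
  nlinarith [norm_nonneg (x - c)]

lemma support_bump (c : E2) : Function.support (bump c) ⊆ core c := by
  intro x hx
  by_contra hcon
  apply hx
  unfold bump
  apply softPos_of_nonpos
  have h1 : rc ^ 2 < ‖x - c‖ ^ 2 + 0.0002 ^ 2 := by
    unfold core at hcon
    simpa using hcon
  have h2 : rc ≤ rdist c x := by
    unfold rdist
    exact Real.le_sqrt_of_sq_le h1.le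
  have h3 := mul_le_mul_of_nonneg_left h2 Lc_pos.le
  rw [Lc_mul_rc] at h3
  linarith

lemma tsupport_bump (c : E2) : tsupport (bump c) ⊆ core c :=
  closure_minimal (support_bump c) (isClosed_core c)

lemma hcs_bump (c : E2) : HasCompactSupport (bump c) :=
  HasCompactSupport.of_support_subset_isCompact (isCompact_closedBall c 1)
    ((support_bump c).trans (core_sub c))

lemma core_coord {c x : E2} (hx : x ∈ core c) (i : Fin 2) : |x i - c i| < rc := by
  have h1 : ‖x - c‖ ^ 2 + 0.0002 ^ 2 ≤ rc ^ 2 := hx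
  have h2 : |x i - c i| ≤ ‖x - c‖ := by
    have := PiLp.norm_apply_le (x - c) i
    rwa [PiLp.sub_apply, Real.norm_eq_abs] at this
  have h3 := rc_pos
  have h4 := abs_nonneg (x i - c i)
  by_contra hcon
  push Not at hcon
  nlinarith

lemma core_sub_square {a b : ℝ} (ha : a = rc ∨ a = 1 - rc) (hb : b = rc ∨ b = 1 - rc) :
    core (pt a b) ⊆ square := by
  intro x hx i
  have h1 := abs_lt.1 (core_coord hx i)
  have h2 := rc_lt
  have h3 := rc_pos
  norm_num at h2
  fin_cases i
  · simp only [Fin.zero_eta, pt_zero] at h1 ⊢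
    rcases ha with rfl | rfl <;> constructor <;> linarith
  · simp only [Fin.mk_one, pt_one] at h1 ⊢
    rcases hb with rfl | rfl <;> constructor <;> linarith

lemma isTest_bump {a b : ℝ} (ha : a = rc ∨ a = 1 - rc) (hb : b = rc ∨ b = 1 - rc) :
    IsTest (bump (pt a b)) :=
  ⟨bump_contDiff _, hcs_bump _, (tsupport_bump _).trans (core_sub_square ha hb)⟩

lemma cores_disjoint {x : E2} (h1 : x ∈ core (pt rc rc))
    (h2 : x ∈ core (pt (1 - rc) (1 - rc))) : False := by
  have a1 : ‖x - pt rc rc‖ ^ 2 + 0.0002 ^ 2 ≤ rc ^ 2 := h1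
  have a2 : ‖x - pt (1 - rc) (1 - rc)‖ ^ 2 + 0.0002 ^ 2 ≤ rc ^ 2 := h2
  rw [norm_sub_sq] at a1 a2
  simp only [pt_zero, pt_one] at a1 a2
  have h3 : 2 * (1 - 2 * rc) ^ 2 = 4 * rc ^ 2 := by
    unfold rc
    have := sqrt2_sq
    nlinarith
  nlinarith [sq_nonneg (x 0 - rc + (x 0 - (1 - rc))), sq_nonneg (x 1 - rc + (x 1 - (1 - rc)))]

lemma bump_lower {c x : E2} (hx : ‖x - c‖ ≤ 0.002) : 0.99303 ≤ bump c x := by
  have h1 : rdist c x ≤ 0.00201 := by
    unfold rdist
    apply Real.sqrt_le_iff.2
    refine ⟨by norm_num, ?_⟩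
    have : ‖x - c‖ ^ 2 ≤ 0.002 ^ 2 := pow_le_pow_left₀ (norm_nonneg _) hx 2
    norm_num at this ⊢
    linarith
  have h2 := softPos_lower (1 - Lc * rdist c x)
  have h3 : Lc * rdist c x ≤ 3.41422 * 0.00201 :=
    mul_le_mul Lc_ub.le h1 (Real.sqrt_nonneg _) (by norm_num)
  unfold bump
  norm_num at h2 h3 ⊢
  linarith

end Pool.Agent.PLap94
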