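import Pool.Agent.PLap94.Key

open MeasureTheory Set Metric Filter Topology
open scoped ENNReal ContDiff

namespace Pool.Agent.PLap94

/-- Lebesgue measure on the open unit square. -/
noncomputable def μS : Measure E2 := volume.restrict square

/-- `φ ∈ C_c^∞(Ω)`, `Ω` the open unit square (functions are extended by zero to the plane). -/
def IsTest (φ : E2 → ℝ) : Prop :=
  ContDiff ℝ ∞ φ ∧ HasCompactSupport φ ∧ tsupport φ ⊆ square

instance factOfReal (p : ℝ) [h : Fact (1 < p)] : Fact (1 ≤ ENNReal.ofReal p) :=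
  ⟨by rw [ENNReal.one_le_ofReal]; exact h.out.le⟩

/-- The Banach space `L^p(Ω) × L^p(Ω; ℝ²)` of pairs `(u, g)`. -/
abbrev PairSpace (p : ℝ) := Lp ℝ (ENNReal.ofReal p) μS × Lp E2 (ENNReal.ofReal p) μS

/-- The Sobolev space `W_0^{1,p}(Ω)`: a function `u` is represented by the pair `(u, ∇u)`, and
`W_0^{1,p}(Ω)` is the closure of `{(φ, ∇φ) : φ ∈ C_c^∞(Ω)}` in `L^p(Ω) × L^p(Ω; ℝ²)`. -/
def W0 (p : ℝ) [Fact (1 < p)] : Set (PairSpace p) :=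
  closure {w | ∃ φ : E2 → ℝ, IsTest φ ∧ w.1 =ᵐ[μS] φ ∧ w.2 =ᵐ[μS] gradient φ}

/-- The Dirichlet energy `∫_Ω |∇u|^p`. -/
noncomputable def energy (p : ℝ) (w : PairSpace p) : ℝ≥0∞ := ∫⁻ x, ‖w.2 x‖ₑ ^ p ∂μS

/-- The sphere `S = {u ∈ W_0^{1,p}(Ω) : ∫_Ω |u|^p = 1}`. -/
def sphereS (p : ℝ) [Fact (1 < p)] : Set (PairSpace p) :=
  {w | w ∈ W0 p ∧ ∫⁻ x, ‖w.1 x‖ₑ ^ p ∂μS = 1}

/-- There is a continuous odd map `A → ℝ^m ∖ {0}`. -/
def HasOddMap {X : Type*} [TopologicalSpace X] [Neg X] (A : Set X) (m : ℕ) : Prop :=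
  ∃ f : X → EuclideanSpace ℝ (Fin m),
    ContinuousOn f A ∧ (∀ x ∈ A, f (-x) = -f x) ∧ ∀ x ∈ A, f x ≠ 0

/-- The Krasnosel'skii genus: the least `m ≥ 1` with a continuous odd map `A → ℝ^m ∖ {0}`
(and `⊤` if there is none). -/
noncomputable def genus {X : Type*} [TopologicalSpace X] [Neg X] (A : Set X) : ℕ∞ :=
  ⨅ (m : ℕ) (_ : 1 ≤ m ∧ HasOddMap A m), (m : ℕ∞)

/-- The admissible sets in the definition of `λ_k`: nonempty compact sets `A ⊆ S` with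
`A = -A` and genus at least `k`. -/
def Admissible (p : ℝ) [Fact (1 < p)] (k : ℕ) (A : Set (PairSpace p)) : Prop :=
  A ⊆ sphereS p ∧ IsCompact A ∧ A.Nonempty ∧ (∀ w, w ∈ A ↔ -w ∈ A) ∧ (k : ℕ∞) ≤ genus A

/-- The variational eigenvalue `λ_k(p; Ω)` of the `p`-Laplacian on the unit square. -/
noncomputable def eigenvalue (k : ℕ) (p : ℝ) [Fact (1 < p)] : ℝ≥0∞ :=
  ⨅ (A : Set (PairSpace p)) (_ : Admissible p k A), ⨆ w ∈ A, energy p w

end Pool.Agent.PLap94
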