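import Pool.Agent.PLap94.Morrey

open MeasureTheory Set Metric Filter Topology

namespace Pool.Agent.PLap94

/-- The open unit square. -/
def square : Set E2 := {x | ∀ i, 0 < x i ∧ x i < 1}

lemma norm_sub_sq (x y : E2) : ‖x - y‖ ^ 2 = (x 0 - y 0) ^ 2 + (x 1 - y 1) ^ 2 := by
  rw [EuclideanSpace.norm_sq_eq, Fin.sum_univ_two]
  simp

/-- near-Lipschitz condition with the numerical constants used below -/
def NearLip (φ : E2 → ℝ) : Prop :=
  ∀ x y : E2, |φ x - φ y| ≤ 3.7202 * (‖x - y‖ + 0.00242)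

lemma pow_h {p : ℝ} (hp : 300 ≤ p) : (Real.pi * 0.0012 ^ 2) ^ (-(1 / p)) ≤ 1.0419 := by
  have hp0 : 0 < p := by linarith
  have h0 : (0 : ℝ) < Real.pi * 0.0012 ^ 2 := by positivity
  have h1 : (Real.pi * 0.0012 ^ 2)⁻¹ ≤ (1.0419 : ℝ) ^ p := by
    calc (Real.pi * 0.0012 ^ 2)⁻¹ ≤ 221060 := by
          rw [inv_le_comm₀ h0 (by norm_num)]
          have := Real.pi_gt_d4
          norm_num at this ⊢
          linarith
      _ ≤ (60.5 : ℝ) ^ 3 := by norm_num
      _ ≤ ((1.0419 : ℝ) ^ 100) ^ 3 := by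
          apply pow_le_pow_left₀ (by norm_num)
          norm_num
      _ = (1.0419 : ℝ) ^ (300 : ℕ) := by rw [← pow_mul]
      _ = (1.0419 : ℝ) ^ ((300 : ℕ) : ℝ) := by rw [Real.rpow_natCast]
      _ ≤ (1.0419 : ℝ) ^ p := by
          apply Real.rpow_le_rpow_of_exponent_le (by norm_num)
          push_cast
          exact hp
  calc (Real.pi * 0.0012 ^ 2) ^ (-(1 / p)) = ((Real.pi * 0.0012 ^ 2)⁻¹) ^ (1 / p) := by
        rw [Real.rpow_neg h0.le, Real.inv_rpow h0.le]
    _ ≤ ((1.0419 : ℝ) ^ p) ^ (1 / p) := Real.rpow_le_rpow (by positivity) h1 (by positivity)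
    _ = 1.0419 := by
        rw [← Real.rpow_mul (by norm_num), mul_one_div_cancel hp0.ne', Real.rpow_one]

lemma nearLip_of {φ : E2 → ℝ} (hφ : ContDiff ℝ 1 φ) (hc : HasCompactSupport φ) {p : ℝ}
    (hp : 300 ≤ p) (hN : gradNorm p φ ≤ 3.5705) : NearLip φ := by
  intro x y
  have hp0 : 0 < p := by linarith
  have h := near_lipschitz hφ hc (by linarith : 2 < p) (h := 0.0012) (by norm_num) x y
  have h1 := pow_h hp
  have h2 : (Real.pi * 0.0012 ^ 2) ^ (-(1 / p)) * gradNorm p φ ≤ 3.7202 := by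
    calc (Real.pi * 0.0012 ^ 2) ^ (-(1 / p)) * gradNorm p φ ≤ 1.0419 * 3.5705 :=
          mul_le_mul h1 hN (gradNorm_nonneg _ _) (by norm_num)
      _ ≤ 3.7202 := by norm_num
  have h3 : 2 * ((0.0012 : ℝ) / (1 - 2 / p)) ≤ 0.00242 := by
    have h4 : 2 / p ≤ 2 / 300 := by
      apply div_le_div_of_nonneg_left (by norm_num) (by norm_num) hp
    have h5 : (0.9933 : ℝ) ≤ 1 - 2 / p := by norm_num at h4 ⊢; linarith
    rw [← mul_div_assoc, div_le_iff₀ (by linarith)]
    nlinarith
  calc |φ x - φ y| ≤ (‖x - y‖ + 2 * (0.0012 / (1 - 2 / p))) *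
        ((Real.pi * 0.0012 ^ 2) ^ (-(1 / p)) * gradNorm p φ) := h
    _ ≤ (‖x - y‖ + 0.00242) * 3.7202 := by
        apply mul_le_mul (by linarith) h2
        · exact mul_nonneg (by positivity) (gradNorm_nonneg _ _)
        · positivity
    _ = _ := mul_comm _ _

/-- where a near-Lipschitz function vanishing outside the square can be almost one -/
lemma coord_bound {φ : E2 → ℝ} (hL : NearLip φ) (h0 : ∀ x, x ∉ square → φ x = 0)
    {x : E2} (hx : 0.995 ≤ |φ x|) (i : Fin 2) : 0.265 ≤ x i ∧ x i ≤ 0.735 := by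
  have hxs : x ∈ square := by
    by_contra h
    rw [h0 x h] at hx
    norm_num at hx
  constructor
  · -- replace coordinate by 0
    set y : E2 := x - EuclideanSpace.single i (x i) with hy
    have hys : y ∉ square := by
      intro h
      have := (h i).1
      simp [hy] at this
    have h1 := hL x y
    rw [h0 y hys, sub_zero] at h1
    have h2 : ‖x - y‖ = x i := by
      rw [hy, sub_sub_cancel, PiLp.norm_single, Real.norm_of_nonneg (hxs i).1.le]
    rw [h2] at h1
    norm_num at h1 hx ⊢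
    linarith
  · set y : E2 := x + EuclideanSpace.single i (1 - x i) with hy
    have hys : y ∉ square := by
      intro h
      have := (h i).2
      simp [hy] at this
    have h1 := hL x y
    rw [h0 y hys, sub_zero] at h1
    have h2 : ‖x - y‖ = 1 - x i := by
      rw [hy, sub_add_cancel_left, norm_neg, PiLp.norm_single,
        Real.norm_of_nonneg (by linarith [(hxs i).2])]
    rw [h2] at h1
    norm_num at h1 hx ⊢
    linarith

lemma far_coord {φ : E2 → ℝ} (hL : NearLip φ) (h0 : ∀ x, x ∉ square → φ x = 0)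
    {x y : E2} (hx : 0.995 ≤ φ x) (hy : φ y ≤ -0.995) : 0.25 ≤ |x 0 - y 0| := by
  have hxb := coord_bound hL h0 (x := x) (hx.trans (le_abs_self _)) 1
  have hyb := coord_bound hL h0 (x := y)
    (by have := neg_le_abs (φ y); linarith) 1
  have h1 : 0.5324 ≤ ‖x - y‖ := by
    have := hL x y
    have h2 : 1.99 ≤ |φ x - φ y| := by
      refine le_trans ?_ (le_abs_self _)
      norm_num at hx hy ⊢
      linarith
    norm_num at this h2 ⊢
    linarith
  have h2 := norm_sub_sq x y
  have h3 : (0.5324 : ℝ) ^ 2 ≤ ‖x - y‖ ^ 2 := by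
    apply pow_le_pow_left₀ (by norm_num) h1
  have hb : (x 1 - y 1) ^ 2 ≤ 0.47 ^ 2 := by
    norm_num at hxb hyb ⊢
    nlinarith
  have h4 : (0.25 : ℝ) ^ 2 ≤ (x 0 - y 0) ^ 2 := by
    norm_num at hb h3 ⊢
    linarith
  by_contra hlt
  push Not at hlt
  have := abs_lt.1 hlt
  nlinarith

/-- the left half plane -/
def Lset : Set E2 := {x | x 0 < 1 / 2}

lemma opp {φ : E2 → ℝ} (hL : NearLip φ) (h0 : ∀ x, x ∉ square → φ x = 0)
    {x y : E2} (hx : 0.995 ≤ φ x) (hy : φ y ≤ -0.995) : x ∈ Lset ↔ y ∉ Lset := by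
  have hxb := coord_bound hL h0 (x := x) (hx.trans (le_abs_self _)) 0
  have hyb := coord_bound hL h0 (x := y)
    (by have := neg_le_abs (φ y); linarith) 0
  have h := far_coord hL h0 hx hy
  unfold Lset
  simp only [mem_ofPred_eq, not_lt]
  norm_num at hxb hyb h
  constructor
  · intro h1
    by_contra h2
    push Not at h2
    have : |x 0 - y 0| < 1 / 4 := by
      rw [abs_lt]
      norm_num
      constructor <;> linarith
    linarith
  · intro h1
    by_contra h2
    push Not at h2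
    have : |x 0 - y 0| < 1 / 4 := by
      rw [abs_lt]
      norm_num
      constructor <;> linarith
    linarith

theorem sides {φ : E2 → ℝ} (hL : NearLip φ) (h0 : ∀ x, x ∉ square → φ x = 0)
    {x y : E2} (hx : 0.995 ≤ φ x) (hy : φ y ≤ -0.995) :
    ((∀ z ∈ Lset, φ z < 0.995) ∧ (∀ z ∈ Lsetᶜ, -0.995 < φ z)) ∨
    ((∀ z ∈ Lset, -0.995 < φ z) ∧ (∀ z ∈ Lsetᶜ, φ z < 0.995)) := by
  have hxy := opp hL h0 hx hy
  by_cases hyL : y ∈ Lset
  · left
    constructor
    · intro z hz
      by_contra hcon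
      push Not at hcon
      exact (opp hL h0 hcon hy).1 hz hyL
    · intro z hz
      by_contra hcon
      push Not at hcon
      exact (hxy.1 ((opp hL h0 hx hcon).2 hz)) hyL
  · right
    constructor
    · intro z hz
      by_contra hcon
      push Not at hcon
      exact (opp hL h0 hx hcon).1 (hxy.2 hyL) hz
    · intro z hz
      by_contra hcon
      push Not at hcon
      exact hz ((opp hL h0 hcon hy).2 hyL)

/-- the point with coordinates `a`, `b` -/
noncomputable def pt (a b : ℝ) : E2 := !₂[a, b]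

@[simp] lemma pt_zero (a b : ℝ) : pt a b 0 = a := by simp [pt]
@[simp] lemma pt_one (a b : ℝ) : pt a b 1 = b := by simp [pt]

end Pool.Agent.PLap94
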