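import Pool.Agent.PLap94.LpPart

open MeasureTheory Set Metric Filter Topology
open scoped ENNReal ContDiff

namespace Pool.Agent.PLap94

variable {p : ℝ} [hp : Fact (1 < p)]

lemma pow_995 (hp3 : 300 ≤ p) : (0.995 : ℝ) ^ p ≤ 0.2224 := by
  calc (0.995 : ℝ) ^ p ≤ (0.995 : ℝ) ^ ((300 : ℕ) : ℝ) := by
        apply Real.rpow_le_rpow_of_exponent_ge (by norm_num) (by norm_num)
        push_cast
        exact hp3
    _ = ((0.995 : ℝ) ^ 100) ^ 3 := by rw [Real.rpow_natCast, ← pow_mul]
    _ ≤ (0.6058 : ℝ) ^ 3 := by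
        apply pow_le_pow_left₀ (by norm_num)
        norm_num
    _ ≤ 0.2224 := by norm_num

lemma large_of_mass (hp3 : 300 ≤ p) {t : ℝ} (ht : 0 ≤ t) (h : 0.49 < t ^ p) : 0.995 < t := by
  by_contra hlt
  push Not at hlt
  have hp0 : 0 < p := p_pos
  have h1 : t ^ p ≤ (0.995 : ℝ) ^ p := Real.rpow_le_rpow ht hlt hp0.le
  have h2 := pow_995 hp3
  norm_num at h h1 h2
  linarith

/-- the odd map into the plane -/
noncomputable def oddMap (w : PairSpace p) : EuclideanSpace ℝ (Fin 2) :=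
  !₂[‖Lp.posPart w.1‖ - ‖Lp.negPart w.1‖, bLp w.1]

lemma continuous_oddMap : Continuous (oddMap : PairSpace p → EuclideanSpace ℝ (Fin 2)) := by
  unfold oddMap
  have h1 : Continuous fun w : PairSpace p => ‖Lp.posPart w.1‖ - ‖Lp.negPart w.1‖ :=
    (Lp.continuous_posPart.comp continuous_fst).norm.sub
      (Lp.continuous_negPart.comp continuous_fst).norm
  have h2 : Continuous fun w : PairSpace p => bLp w.1 := continuous_bLp.comp continuous_fst
  refine (PiLp.continuous_toLp 2 _).comp ?_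
  refine continuous_pi fun i => ?_
  fin_cases i
  · exact h1
  · exact h2

lemma oddMap_neg (w : PairSpace p) : oddMap (-w) = -oddMap w := by
  have h1 : Lp.posPart (-w.1) = Lp.negPart w.1 := rfl
  have h2 : Lp.negPart (-w.1) = Lp.posPart w.1 := by
    unfold Lp.negPart
    rw [neg_neg]
  ext i
  fin_cases i
  · simp [oddMap, h1, h2]
  · simp [oddMap, bLp_neg]

/-- the crucial non-vanishing statement -/
theorem oddMap_ne_zero (hp3 : 300 ≤ p) {w : PairSpace p} (hw : w ∈ W0 p) (hn : ‖w.1‖ = 1)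
    (he : ‖w.2‖ < 3.5704) : oddMap w ≠ 0 := by
  intro h0
  have hp0 : 0 < p := p_pos
  have ha : ‖Lp.posPart w.1‖ - ‖Lp.negPart w.1‖ = 0 := by
    have := congrArg (fun v : EuclideanSpace ℝ (Fin 2) => v 0) h0
    simpa [oddMap] using this
  have hb : bLp w.1 = 0 := by
    have := congrArg (fun v : EuclideanSpace ℝ (Fin 2) => v 1) h0
    simpa [oddMap] using this
  have heq : ‖Lp.negPart w.1‖ = ‖Lp.posPart w.1‖ := by linarith
  have hparts := norm_parts w.1
  rw [hn, heq, Real.one_rpow] at hparts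
  have hpos : 0.49 < ‖Lp.posPart w.1‖ ^ p := by norm_num; linarith
  have hneg : 0.49 < ‖Lp.negPart w.1‖ ^ p := by rw [heq]; exact hpos
  -- approximate by a test function
  have hU : {v : PairSpace p | ‖v.2‖ < 3.5705} ∩ {v : PairSpace p | 0.49 < ‖Lp.posPart v.1‖ ^ p} ∩
      {v : PairSpace p | 0.49 < ‖Lp.negPart v.1‖ ^ p} ∩ {v : PairSpace p | |bLp v.1| < 0.05} ∈
      𝓝 w := by
    refine inter_mem (inter_mem (inter_mem ?_ ?_) ?_) ?_
    · refine (isOpen_lt continuous_snd.norm continuous_const).mem_nhds ?_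
      show ‖w.2‖ < 3.5705
      norm_num at he ⊢
      linarith
    · exact (isOpen_lt continuous_const
        (continuous_norm_rpow (Lp.continuous_posPart.comp continuous_fst))).mem_nhds hpos
    · exact (isOpen_lt continuous_const
        (continuous_norm_rpow (Lp.continuous_negPart.comp continuous_fst))).mem_nhds hneg
    · refine (isOpen_lt (continuous_bLp.comp continuous_fst).abs continuous_const).mem_nhds ?_
      show |bLp w.1| < 0.05
      rw [hb, abs_zero]
      norm_num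
  obtain ⟨w', ⟨⟨⟨hd1, hd2⟩, hd3⟩, hd4⟩, φ, hφ, h1, h2⟩ := mem_closure_iff_nhds.1 hw _ hU
  simp only [mem_ofPred_eq] at hd1 hd2 hd3 hd4
  -- gradient
  have hg : gradNorm p φ ≤ 3.5705 := by
    rw [← norm_grad_eq hφ w'.2 h2]
    exact hd1.le
  have hc1 : ContDiff ℝ 1 φ := hφ.1.of_le (by exact_mod_cast le_top)
  have hNL : NearLip φ := nearLip_of hc1 hφ.2.1 hp3 hg
  -- points
  obtain ⟨x, hx⟩ := exists_large w'.1 h1 (by norm_num) (large_of_mass hp3 (norm_nonneg _) hd2)
  obtain ⟨y, hy⟩ := exists_small w'.1 h1 (by norm_num) (large_of_mass hp3 (norm_nonneg _) hd3)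
  have m1 := mass_add (Lp.posPart w'.1)
  have m2 := mass_add (Lp.negPart w'.1)
  have hpw := pow_995 hp3
  have hb' := abs_lt.1 hd4
  unfold bLp at hb'
  norm_num at hd2 hd3 hb' hpw
  rcases sides hNL (fun x hx => hφ.eq_zero hx) hx hy with ⟨s1, s2⟩ | ⟨s1, s2⟩
  · have e1 := mass_pos_le w'.1 h1 measurableSet_Lset (C := 0.995) (by norm_num) s1
    have e2 := mass_neg_le w'.1 h1 measurableSet_Lset.compl (C := 0.995) (by norm_num) s2
    norm_num at e1 e2
    linarith
  · have e1 := mass_neg_le w'.1 h1 measurableSet_Lset (C := 0.995) (by norm_num) s1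
    have e2 := mass_pos_le w'.1 h1 measurableSet_Lset.compl (C := 0.995) (by norm_num) s2
    norm_num at e1 e2
    linarith

theorem genus_le_two (hp3 : 300 ≤ p) {A : Set (PairSpace p)} (hA : A ⊆ sphereS p)
    (he : ∀ w ∈ A, ‖w.2‖ < 3.5704) : genus A ≤ 2 := by
  have h1 : HasOddMap A 2 := by
    refine ⟨oddMap, continuous_oddMap.continuousOn, fun w _ => oddMap_neg w, fun w hw => ?_⟩
    have hw1 := hA hw
    refine oddMap_ne_zero hp3 hw1.1 ?_ (he w hw)
    have h2 := hw1.2
    rw [lint_eq] at h2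
    have hp0 : 0 < p := p_pos
    have h3 : ‖w.1‖ ^ p = 1 := by
      have := ENNReal.ofReal_eq_one.1 h2
      exact this
    have h4 := congrArg (fun t : ℝ => t ^ (1 / p)) h3
    simp only [Real.one_rpow] at h4
    rwa [← Real.rpow_mul (norm_nonneg _), mul_one_div_cancel hp0.ne', Real.rpow_one] at h4
  unfold genus
  exact iInf₂_le_of_le 2 ⟨by norm_num, h1⟩ le_rfl

theorem eigenvalue_three_ge (hp3 : 300 ≤ p) :
    ENNReal.ofReal (3.5704 ^ p) ≤ eigenvalue 3 p := by
  unfold eigenvalue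
  refine le_iInf₂ fun A hA => ?_
  by_contra hlt
  push Not at hlt
  have hp0 : 0 < p := p_pos
  have he : ∀ w ∈ A, ‖w.2‖ < 3.5704 := by
    intro w hw
    have h1 : energy p w < ENNReal.ofReal (3.5704 ^ p) :=
      lt_of_le_of_lt (le_iSup₂_of_le w hw le_rfl) hlt
    unfold energy at h1
    rw [lint_eq] at h1
    have h2 := (ENNReal.ofReal_lt_ofReal_iff (by positivity)).1 h1
    exact (Real.rpow_lt_rpow_iff (norm_nonneg _) (by norm_num) hp0).1 h2
  have h3 := genus_le_two hp3 hA.1 he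
  have h4 := hA.2.2.2.2.trans h3
  norm_num at h4

end Pool.Agent.PLap94
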