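import Pool.Agent.PLap94.Defs

open MeasureTheory Set Metric Filter Topology
open scoped ENNReal ContDiff

namespace Pool.Agent.PLap94

lemma square_eq : square = (MeasurableEquiv.toLp 2 (Fin 2 → ℝ)).symm ⁻¹'
    (Set.pi univ fun _ => Ioo (0 : ℝ) 1) := by
  ext x
  simp [square]

lemma measurableSet_square : MeasurableSet square := by
  rw [square_eq]
  apply (MeasurableEquiv.toLp 2 (Fin 2 → ℝ)).symm.measurable
  exact MeasurableSet.univ_pi fun _ => measurableSet_Ioo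

lemma volume_square : volume square = 1 := by
  rw [square_eq, (EuclideanSpace.volume_preserving_symm_measurableEquiv_toLp (Fin 2)).measure_preimage
    (MeasurableSet.univ_pi fun _ => measurableSet_Ioo).nullMeasurableSet, volume_pi_pi]
  simp

instance : IsProbabilityMeasure μS := ⟨by
  unfold μS
  rw [Measure.restrict_apply_univ, volume_square]⟩

variable {p : ℝ} [hp : Fact (1 < p)]

lemma p_pos : 0 < p := lt_trans zero_lt_one hp.out

lemma lint_eq {F : Type*} [NormedAddCommGroup F] (w : Lp F (ENNReal.ofReal p) μS) :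
    ∫⁻ x, ‖w x‖ₑ ^ p ∂μS = ENNReal.ofReal (‖w‖ ^ p) := by
  have hp0 : 0 < p := p_pos
  have h1 := eLpNorm_eq_lintegral_rpow_enorm_toReal (f := w) (μ := μS)
    (p := ENNReal.ofReal p) (by simpa using hp0) ENNReal.ofReal_ne_top
  rw [ENNReal.toReal_ofReal hp0.le] at h1
  have h2 : ENNReal.ofReal ‖w‖ = eLpNorm w (ENNReal.ofReal p) μS := by
    rw [Lp.norm_def, ENNReal.ofReal_toReal (Lp.eLpNorm_ne_top w)]
  rw [← ENNReal.ofReal_rpow_of_nonneg (norm_nonneg _) hp0.le, h2, h1, ← ENNReal.rpow_mul,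
    one_div, inv_mul_cancel₀ hp0.ne', ENNReal.rpow_one]

lemma norm_of_ae_eq {F : Type*} [NormedAddCommGroup F] (w : Lp F (ENNReal.ofReal p) μS)
    (φ : E2 → F) (h : w =ᵐ[μS] φ) : ‖w‖ = (∫ x, ‖φ x‖ ^ p ∂μS) ^ (1 / p) := by
  have hp0 : 0 < p := p_pos
  rw [Lp.norm_def]
  rw [(Lp.memLp w).eLpNorm_eq_integral_rpow_norm (by simpa using hp0) ENNReal.ofReal_ne_top,
    ENNReal.toReal_ofReal hp0.le, ENNReal.toReal_ofReal (by positivity), one_div]
  congr 1
  apply integral_congr_ae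
  filter_upwards [h] with x hx
  rw [hx]

lemma norm_gradient (φ : E2 → ℝ) (x : E2) : ‖gradient φ x‖ = ‖fderiv ℝ φ x‖ := by
  unfold gradient
  simp

lemma norm_grad_eq {φ : E2 → ℝ} (hφ : IsTest φ) (w : Lp E2 (ENNReal.ofReal p) μS)
    (h : w =ᵐ[μS] gradient φ) : ‖w‖ = gradNorm p φ := by
  have hp0 : 0 < p := p_pos
  rw [norm_of_ae_eq w _ h]
  unfold gradNorm
  congr 1
  simp only [norm_gradient]
  unfold μS
  apply setIntegral_eq_integral_of_forall_compl_eq_zero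
  intro x hx
  have h1 : fderiv ℝ φ x = 0 := by
    by_contra hne
    exact hx (hφ.2.2 (support_fderiv_subset ℝ (Function.mem_support.2 hne)))
  rw [h1, norm_zero, Real.zero_rpow hp0.ne']

lemma IsTest.eq_zero {φ : E2 → ℝ} (hφ : IsTest φ) {x : E2} (hx : x ∉ square) : φ x = 0 := by
  by_contra hne
  exact hx (hφ.2.2 (subset_tsupport _ (Function.mem_support.2 hne)))

lemma posPart_norm_sub_le (u v : Lp ℝ (ENNReal.ofReal p) μS) :
    ‖Lp.posPart u - Lp.posPart v‖ ≤ ‖u - v‖ := by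
  have := lipschitzWith_posPart.norm_compLp_sub_le (max_self (0 : ℝ)) u v
  rw [NNReal.coe_one, one_mul] at this
  exact this

lemma negPart_norm_sub_le (u v : Lp ℝ (ENNReal.ofReal p) μS) :
    ‖Lp.negPart u - Lp.negPart v‖ ≤ ‖u - v‖ := by
  have := posPart_norm_sub_le (-u) (-v)
  rw [show -u - -v = -(u - v) by abel, norm_neg] at this
  exact this

lemma norm_le_of_bound {F : Type*} [NormedAddCommGroup F] (w : Lp F (ENNReal.ofReal p) μS)
    {C : ℝ} (hC : 0 ≤ C) (h : ∀ᵐ x ∂μS, ‖w x‖ ≤ C) : ‖w‖ ≤ C := by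
  have := Lp.norm_le_of_ae_bound hC h
  rw [show measureUnivNNReal μS = 1 by
    rw [measureUnivNNReal, measure_univ]; rfl, NNReal.coe_one, Real.one_rpow, one_mul] at this
  exact this

lemma exists_large {φ : E2 → ℝ} (w : Lp ℝ (ENNReal.ofReal p) μS) (h : w =ᵐ[μS] φ)
    {C : ℝ} (hC : 0 ≤ C) (hn : C < ‖Lp.posPart w‖) : ∃ x, C ≤ φ x := by
  by_contra hcon
  push Not at hcon
  refine absurd (norm_le_of_bound (Lp.posPart w) hC ?_) (not_le.2 hn)
  filter_upwards [Lp.coeFn_posPart w, h] with x h1 h2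
  rw [h1, h2, Real.norm_of_nonneg (le_max_right _ _)]
  exact max_le (hcon x).le hC

lemma exists_small {φ : E2 → ℝ} (w : Lp ℝ (ENNReal.ofReal p) μS) (h : w =ᵐ[μS] φ)
    {C : ℝ} (hC : 0 ≤ C) (hn : C < ‖Lp.negPart w‖) : ∃ x, φ x ≤ -C := by
  have h2 : (-w : Lp ℝ (ENNReal.ofReal p) μS) =ᵐ[μS] fun x => -φ x := by
    filter_upwards [Lp.coeFn_neg w, h] with x h1 h2
    rw [h1, Pi.neg_apply, h2]
  obtain ⟨x, hx⟩ := exists_large (-w) h2 hC hn
  exact ⟨x, by linarith⟩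

lemma norm_parts (w : Lp ℝ (ENNReal.ofReal p) μS) :
    ‖w‖ ^ p = ‖Lp.posPart w‖ ^ p + ‖Lp.negPart w‖ ^ p := by
  have hp0 : 0 < p := p_pos
  have h1 := lint_eq w
  have h2 := lint_eq (Lp.posPart w)
  have h3 := lint_eq (Lp.negPart w)
  have h4 : ∫⁻ x, ‖w x‖ₑ ^ p ∂μS =
      ∫⁻ x, ‖Lp.posPart w x‖ₑ ^ p ∂μS + ∫⁻ x, ‖Lp.negPart w x‖ₑ ^ p ∂μS := by
    rw [← lintegral_add_left']
    · apply lintegral_congr_ae
      filter_upwards [Lp.coeFn_posPart w, Lp.coeFn_negPart_eq_max w] with x h1 h2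
      rw [h1, h2]
      rcases le_total 0 (w x) with h | h
      · rw [max_eq_left h, max_eq_right (by linarith)]
        simp [hp0]
      · rw [max_eq_right h, max_eq_left (by linarith)]
        simp [hp0]
    · exact ((Lp.aestronglyMeasurable _).enorm).pow_const p
  rw [h1, h2, h3, ← ENNReal.ofReal_add (by positivity) (by positivity)] at h4
  exact (ENNReal.ofReal_eq_ofReal_iff (by positivity) (by positivity)).1 h4

lemma continuous_norm_rpow {X F : Type*} [TopologicalSpace X] [NormedAddCommGroup F]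
    {g : X → F} (hg : Continuous g) : Continuous fun x => ‖g x‖ ^ p :=
  hg.norm.rpow_const fun _ => Or.inr p_pos.le

/-- the integral `∫_s |u|^p`, as the `p`-th power of the norm of the restriction -/
noncomputable def mass (s : Set E2) (u : Lp ℝ (ENNReal.ofReal p) μS) : ℝ :=
  ‖LpToLpRestrictCLM E2 ℝ ℝ μS (ENNReal.ofReal p) s u‖ ^ p

lemma mass_nonneg (s : Set E2) (u : Lp ℝ (ENNReal.ofReal p) μS) : 0 ≤ mass s u :=
  Real.rpow_nonneg (norm_nonneg _) _

lemma continuous_mass (s : Set E2) :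
    Continuous (mass s : Lp ℝ (ENNReal.ofReal p) μS → ℝ) := by
  unfold mass
  exact continuous_norm_rpow (LpToLpRestrictCLM E2 ℝ ℝ μS (ENNReal.ofReal p) s).continuous

lemma ofReal_mass (s : Set E2) (u : Lp ℝ (ENNReal.ofReal p) μS) :
    ENNReal.ofReal (mass s u) = ∫⁻ x in s, ‖u x‖ₑ ^ p ∂μS := by
  have hp0 : 0 < p := p_pos
  set v := LpToLpRestrictCLM E2 ℝ ℝ μS (ENNReal.ofReal p) s u with hv
  have h1 := eLpNorm_eq_lintegral_rpow_enorm_toReal (f := v) (μ := μS.restrict s)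
    (p := ENNReal.ofReal p) (by simpa using hp0) ENNReal.ofReal_ne_top
  rw [ENNReal.toReal_ofReal hp0.le] at h1
  have h2 : ENNReal.ofReal ‖v‖ = eLpNorm v (ENNReal.ofReal p) (μS.restrict s) := by
    rw [Lp.norm_def, ENNReal.ofReal_toReal (Lp.eLpNorm_ne_top v)]
  unfold mass
  rw [← hv, ← ENNReal.ofReal_rpow_of_nonneg (norm_nonneg _) hp0.le, h2, h1, ← ENNReal.rpow_mul,
    one_div, inv_mul_cancel₀ hp0.ne', ENNReal.rpow_one]
  apply lintegral_congr_ae
  filter_upwards [LpToLpRestrictCLM_coeFn ℝ s u] with x hx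
  rw [hv, hx]

lemma measurableSet_Lset : MeasurableSet Lset := by
  unfold Lset
  exact (isOpen_lt (by fun_prop) continuous_const).measurableSet

lemma mass_add (u : Lp ℝ (ENNReal.ofReal p) μS) : mass Lset u + mass Lsetᶜ u = ‖u‖ ^ p := by
  have h1 := ofReal_mass Lset u
  have h2 := ofReal_mass Lsetᶜ u
  have h3 := lint_eq u
  have h4 := lintegral_add_compl (μ := μS) (fun x => ‖u x‖ₑ ^ p) measurableSet_Lset
  rw [← h1, ← h2, h3, ← ENNReal.ofReal_add (mass_nonneg _ _) (mass_nonneg _ _)] at h4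
  exact (ENNReal.ofReal_eq_ofReal_iff (add_nonneg (mass_nonneg _ _) (mass_nonneg _ _))
    (by positivity)).1 h4

lemma mass_le {s : Set E2} (hs : MeasurableSet s) (u : Lp ℝ (ENNReal.ofReal p) μS) {C : ℝ}
    (hC : 0 ≤ C) (h : ∀ᵐ x ∂μS, x ∈ s → ‖u x‖ ≤ C) : mass s u ≤ C ^ p := by
  have hp0 : 0 < p := p_pos
  have h1 := ofReal_mass s u
  have h2 : ∫⁻ x in s, ‖u x‖ₑ ^ p ∂μS ≤ ENNReal.ofReal (C ^ p) := by
    calc ∫⁻ x in s, ‖u x‖ₑ ^ p ∂μS ≤ ∫⁻ _ in s, ENNReal.ofReal (C ^ p) ∂μS := by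
          apply lintegral_mono_ae
          rw [ae_restrict_iff' hs]
          filter_upwards [h] with x hx hxs
          rw [← ENNReal.ofReal_rpow_of_nonneg hC hp0.le]
          apply ENNReal.rpow_le_rpow _ hp0.le
          rw [← ofReal_norm_eq_enorm]
          exact ENNReal.ofReal_le_ofReal (hx hxs)
      _ = ENNReal.ofReal (C ^ p) * μS s := by
          rw [lintegral_const, Measure.restrict_apply_univ]
      _ ≤ ENNReal.ofReal (C ^ p) * 1 := by gcongr; exact prob_le_one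
      _ = _ := mul_one _
  rw [← h1] at h2
  exact (ENNReal.ofReal_le_ofReal_iff (by positivity)).1 h2

/-- the odd functional `b` on `L^p` -/
noncomputable def bLp (u : Lp ℝ (ENNReal.ofReal p) μS) : ℝ :=
  mass Lset (Lp.posPart u) - mass Lsetᶜ (Lp.posPart u) - mass Lset (Lp.negPart u) +
    mass Lsetᶜ (Lp.negPart u)

lemma continuous_bLp : Continuous (bLp : Lp ℝ (ENNReal.ofReal p) μS → ℝ) := by
  unfold bLp
  exact ((((continuous_mass _).comp Lp.continuous_posPart).sub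
    ((continuous_mass _).comp Lp.continuous_posPart)).sub
    ((continuous_mass _).comp Lp.continuous_negPart)).add
    ((continuous_mass _).comp Lp.continuous_negPart)

lemma bLp_neg (u : Lp ℝ (ENNReal.ofReal p) μS) : bLp (-u) = -bLp u := by
  have h1 : Lp.posPart (-u) = Lp.negPart u := rfl
  have h2 : Lp.negPart (-u) = Lp.posPart u := by
    unfold Lp.negPart
    rw [neg_neg]
  unfold bLp
  rw [h1, h2]
  ring

lemma mass_pos_le {φ : E2 → ℝ} (w : Lp ℝ (ENNReal.ofReal p) μS) (h : w =ᵐ[μS] φ)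
    {s : Set E2} (hs : MeasurableSet s) {C : ℝ} (hC : 0 ≤ C) (hφ : ∀ z ∈ s, φ z < C) :
    mass s (Lp.posPart w) ≤ C ^ p := by
  refine mass_le hs _ hC ?_
  filter_upwards [Lp.coeFn_posPart w, h] with x h1 h2 hx
  rw [h1, h2, Real.norm_of_nonneg (le_max_right _ _)]
  exact max_le (hφ x hx).le hC

lemma mass_neg_le {φ : E2 → ℝ} (w : Lp ℝ (ENNReal.ofReal p) μS) (h : w =ᵐ[μS] φ)
    {s : Set E2} (hs : MeasurableSet s) {C : ℝ} (hC : 0 ≤ C) (hφ : ∀ z ∈ s, -C < φ z) :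
    mass s (Lp.negPart w) ≤ C ^ p := by
  refine mass_le hs _ hC ?_
  filter_upwards [Lp.coeFn_negPart_eq_max w, h] with x h1 h2 hx
  rw [h1, h2, Real.norm_of_nonneg (le_max_right _ _)]
  exact max_le (by linarith [hφ x hx]) hC

end Pool.Agent.PLap94
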