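import Mathlib

open MeasureTheory Set Metric Filter Topology

namespace Pool.Agent.PLap94

abbrev E2 := EuclideanSpace ℝ (Fin 2)

/-- the `L^p` norm of the gradient over the whole plane (for nice functions) -/
noncomputable def gradNorm (p : ℝ) (φ : E2 → ℝ) : ℝ := (∫ x, ‖fderiv ℝ φ x‖ ^ p) ^ (1 / p)

lemma gradNorm_nonneg (p : ℝ) (φ : E2 → ℝ) : 0 ≤ gradNorm p φ := by
  unfold gradNorm
  apply Real.rpow_nonneg
  exact integral_nonneg fun x => Real.rpow_nonneg (norm_nonneg _) _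

lemma continuous_normfd {φ : E2 → ℝ} (hφ : ContDiff ℝ 1 φ) :
    Continuous (fun x => ‖fderiv ℝ φ x‖) :=
  (hφ.continuous_fderiv one_ne_zero).norm

lemma hcs_normfd {φ : E2 → ℝ} (hc : HasCompactSupport φ) {p : ℝ} (hp : p ≠ 0) :
    HasCompactSupport (fun x => ‖fderiv ℝ φ x‖ ^ p) := by
  have h := hc.fderiv (𝕜 := ℝ)
  exact h.comp_left (g := fun L : E2 →L[ℝ] ℝ => ‖L‖ ^ p) (by simp [Real.zero_rpow hp])

lemma exists_bound {φ : E2 → ℝ} (hφ : ContDiff ℝ 1 φ) (hc : HasCompactSupport φ) :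
    ∃ K : ℝ, 0 ≤ K ∧ ∀ x, ‖fderiv ℝ φ x‖ ≤ K := by
  obtain ⟨K, hK⟩ := (hc.fderiv (𝕜 := ℝ)).exists_bound_of_continuous
    (hφ.continuous_fderiv one_ne_zero)
  exact ⟨K, (norm_nonneg _).trans (hK 0), hK⟩

lemma integrable_normfd_rpow {φ : E2 → ℝ} (hφ : ContDiff ℝ 1 φ) (hc : HasCompactSupport φ)
    {p : ℝ} (hp : 0 < p) : Integrable (fun x => ‖fderiv ℝ φ x‖ ^ p) :=
  ((continuous_normfd hφ).rpow_const (fun _ => Or.inr hp.le)).integrable_of_hasCompactSupport
    (hcs_normfd hc hp.ne')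

lemma vol_ball : (volume : Measure E2).real (closedBall 0 1) = Real.pi := by
  rw [Measure.real, EuclideanSpace.volume_closedBall_fin_two]
  simp [Real.pi_pos.le]

lemma finB : IsFiniteMeasure (volume.restrict (closedBall (0 : E2) 1)) :=
  ⟨by rw [Measure.restrict_apply_univ]; exact measure_closedBall_lt_top⟩

/-- average of the gradient over a scaled ball -/
lemma avg_grad {φ : E2 → ℝ} (hφ : ContDiff ℝ 1 φ) (hc : HasCompactSupport φ) {p : ℝ}
    (hp : 1 < p) {s : ℝ} (hs : 0 < s) (x : E2) :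
    ∫ z in closedBall (0 : E2) 1, ‖fderiv ℝ φ (x + s • z)‖ ≤
      Real.pi * ((Real.pi * s ^ 2) ^ (-(1 / p)) * gradNorm p φ) := by
  have hp0 : 0 < p := by linarith
  set q : ℝ := p / (p - 1) with hq
  have hpq : p.HolderConjugate q := Real.HolderConjugate.conjExponent hp
  set g : E2 → ℝ := fun z => ‖fderiv ℝ φ (x + s • z)‖ with hg
  have hgc : Continuous g := (continuous_normfd hφ).comp (by fun_prop)
  obtain ⟨K, hK0, hK⟩ := exists_bound hφ hc
  have : IsFiniteMeasure (volume.restrict (closedBall (0 : E2) 1)) := finB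
  have hmem : MemLp g (ENNReal.ofReal p) (volume.restrict (closedBall (0 : E2) 1)) := by
    refine MemLp.of_bound hgc.aestronglyMeasurable K ?_
    filter_upwards with z
    simp only [hg, norm_norm]
    exact hK _
  have hmem1 : MemLp (fun _ : E2 => (1 : ℝ)) (ENNReal.ofReal q)
      (volume.restrict (closedBall (0 : E2) 1)) := memLp_const 1
  have h1 := integral_mul_le_Lp_mul_Lq_of_nonneg hpq
    (μ := volume.restrict (closedBall (0 : E2) 1)) (f := g) (g := fun _ => (1 : ℝ))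
    (by filter_upwards with z; exact norm_nonneg _)
    (by filter_upwards with z; exact zero_le_one) hmem hmem1
  simp only [mul_one, Real.one_rpow, integral_const, smul_eq_mul] at h1
  have hvol : (volume.restrict (closedBall (0 : E2) 1)).real univ = Real.pi := by
    rw [Measure.real, Measure.restrict_apply_univ]
    exact vol_ball
  rw [hvol] at h1
  -- integrability on the whole plane
  have hint : Integrable (fun z => g z ^ p) := by
    have h := integrable_normfd_rpow hφ hc hp0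
    have h2 := (h.comp_add_left x)
    exact (integrable_comp_smul_iff volume (fun y => ‖fderiv ℝ φ (x + y)‖ ^ p) hs.ne').2 h2
  have h2 : ∫ z in closedBall (0 : E2) 1, g z ^ p ≤ ∫ z, g z ^ p :=
    setIntegral_le_integral hint (by
      filter_upwards with z; exact Real.rpow_nonneg (norm_nonneg _) _)
  have h3 : ∫ z, g z ^ p = (s ^ 2)⁻¹ * ∫ y, ‖fderiv ℝ φ y‖ ^ p := by
    have := Measure.integral_comp_smul_of_nonneg (volume : Measure E2)
      (fun y => ‖fderiv ℝ φ (x + y)‖ ^ p) s (hR := hs.le)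
    rw [finrank_euclideanSpace, Fintype.card_fin] at this
    rw [show (fun z => g z ^ p) = fun z => (fun y => ‖fderiv ℝ φ (x + y)‖ ^ p) (s • z) from rfl,
      this, smul_eq_mul]
    congr 1
    exact integral_add_left_eq_self (fun y => ‖fderiv ℝ φ y‖ ^ p) x
  have hI0 : 0 ≤ ∫ y, ‖fderiv ℝ φ y‖ ^ p :=
    integral_nonneg fun x => Real.rpow_nonneg (norm_nonneg _) _
  have h0 : 0 ≤ ∫ z in closedBall (0 : E2) 1, g z ^ p :=
    integral_nonneg fun x => Real.rpow_nonneg (norm_nonneg _) _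
  have h4 : (∫ z in closedBall (0 : E2) 1, g z ^ p) ^ (1 / p) ≤
      (s ^ 2) ^ (-(1 / p)) * gradNorm p φ := by
    calc (∫ z in closedBall (0 : E2) 1, g z ^ p) ^ (1 / p)
        ≤ ((s ^ 2)⁻¹ * ∫ y, ‖fderiv ℝ φ y‖ ^ p) ^ (1 / p) :=
          Real.rpow_le_rpow h0 (h2.trans h3.le) (by positivity)
      _ = ((s ^ 2)⁻¹) ^ (1 / p) * gradNorm p φ := by
          rw [Real.mul_rpow (by positivity) hI0]; rfl
      _ = (s ^ 2) ^ (-(1 / p)) * gradNorm p φ := by
          congr 1
          rw [Real.inv_rpow (by positivity), Real.rpow_neg (by positivity)]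
  have h5 : Real.pi ^ (1 / q) = Real.pi * Real.pi ^ (-(1 / p)) := by
    have hq1 : 1 / q = 1 + (-(1 / p)) := by
      have := hpq.inv_add_inv_eq_one
      rw [one_div, one_div]
      linarith
    rw [hq1, Real.rpow_add Real.pi_pos, Real.rpow_one]
  calc ∫ z in closedBall (0 : E2) 1, g z
      ≤ (∫ z in closedBall (0 : E2) 1, g z ^ p) ^ (1 / p) * Real.pi ^ (1 / q) := h1
    _ ≤ ((s ^ 2) ^ (-(1 / p)) * gradNorm p φ) * Real.pi ^ (1 / q) :=
        mul_le_mul_of_nonneg_right h4 (by positivity)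
    _ = Real.pi * ((Real.pi * s ^ 2) ^ (-(1 / p)) * gradNorm p φ) := by
        rw [h5, Real.mul_rpow Real.pi_pos.le (by positivity)]
        ring

lemma hasDerivAt_path {φ : E2 → ℝ} (hφ : ContDiff ℝ 1 φ) (hc : HasCompactSupport φ)
    (c0 c1 : E2) (ρ0 ρ1 t : ℝ) :
    HasDerivAt (fun t : ℝ => ∫ z in closedBall (0 : E2) 1, φ (c0 + t • c1 + (ρ0 + t * ρ1) • z))
      (∫ z in closedBall (0 : E2) 1,
        fderiv ℝ φ (c0 + t • c1 + (ρ0 + t * ρ1) • z) (c1 + ρ1 • z)) t := by
  have : IsFiniteMeasure (volume.restrict (closedBall (0 : E2) 1)) := finB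
  obtain ⟨K, hK0, hK⟩ := exists_bound hφ hc
  have hcont : ∀ t : ℝ, Continuous (fun z : E2 => φ (c0 + t • c1 + (ρ0 + t * ρ1) • z)) := by
    intro t
    exact hφ.continuous.comp (by fun_prop)
  have hcontd : ∀ t : ℝ, Continuous (fun z : E2 =>
      fderiv ℝ φ (c0 + t • c1 + (ρ0 + t * ρ1) • z) (c1 + ρ1 • z)) := by
    intro t
    have h1 : Continuous (fun z : E2 => fderiv ℝ φ (c0 + t • c1 + (ρ0 + t * ρ1) • z)) :=
      (hφ.continuous_fderiv one_ne_zero).comp (by fun_prop)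
    exact h1.clm_apply (by fun_prop)
  obtain ⟨M, hM⟩ := hc.exists_bound_of_continuous hφ.continuous
  refine (hasDerivAt_integral_of_dominated_loc_of_deriv_le
    (μ := volume.restrict (closedBall (0 : E2) 1))
    (F := fun (t : ℝ) (z : E2) => φ (c0 + t • c1 + (ρ0 + t * ρ1) • z))
    (F' := fun (t : ℝ) (z : E2) =>
        fderiv ℝ φ (c0 + t • c1 + (ρ0 + t * ρ1) • z) (c1 + ρ1 • z))
    (x₀ := t) (s := univ) (bound := fun _ => K * (‖c1‖ + |ρ1|)) univ_mem ?_ ?_ ?_ ?_ ?_ ?_).2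
  · filter_upwards with s
    exact (hcont s).aestronglyMeasurable
  · refine (memLp_one_iff_integrable).1 (MemLp.of_bound (hcont t).aestronglyMeasurable M ?_)
    filter_upwards with z
    exact hM _
  · exact (hcontd t).aestronglyMeasurable
  · rw [ae_restrict_iff' measurableSet_closedBall]
    filter_upwards with z hz s _
    have hz' : ‖z‖ ≤ 1 := by simpa using hz
    calc ‖fderiv ℝ φ (c0 + s • c1 + (ρ0 + s * ρ1) • z) (c1 + ρ1 • z)‖
        ≤ ‖fderiv ℝ φ (c0 + s • c1 + (ρ0 + s * ρ1) • z)‖ * ‖c1 + ρ1 • z‖ :=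
          ContinuousLinearMap.le_opNorm _ _
      _ ≤ K * (‖c1‖ + |ρ1|) := by
          apply mul_le_mul (hK _) _ (norm_nonneg _) hK0
          calc ‖c1 + ρ1 • z‖ ≤ ‖c1‖ + ‖ρ1 • z‖ := norm_add_le _ _
            _ = ‖c1‖ + |ρ1| * ‖z‖ := by rw [norm_smul, Real.norm_eq_abs]
            _ ≤ ‖c1‖ + |ρ1| := by nlinarith [abs_nonneg ρ1]
  · exact integrable_const _
  · filter_upwards with z s _
    have h1 : HasDerivAt (fun s : ℝ => c0 + s • c1 + (ρ0 + s * ρ1) • z) (c1 + ρ1 • z) s := by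
      have ha : HasDerivAt (fun s : ℝ => c0 + s • c1) c1 s := by
        simpa using ((hasDerivAt_id s).smul_const c1).const_add c0
      have hb : HasDerivAt (fun s : ℝ => (ρ0 + s * ρ1) • z) (ρ1 • z) s := by
        have := ((hasDerivAt_id s).mul_const ρ1).const_add ρ0
        simpa using this.smul_const z
      exact ha.add hb
    have h2 : HasFDerivAt φ (fderiv ℝ φ (c0 + s • c1 + (ρ0 + s * ρ1) • z))
        (c0 + s • c1 + (ρ0 + s * ρ1) • z) :=
      (hφ.differentiable one_ne_zero _).hasFDerivAt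
    exact h2.comp_hasDerivAt s h1

lemma norm_path_deriv_le {φ : E2 → ℝ} (hφ : ContDiff ℝ 1 φ) (hc : HasCompactSupport φ) {p : ℝ}
    (hp : 1 < p) (c1 x : E2) {s : ℝ} (hs : 0 < s) (ρ1 : ℝ) :
    ‖∫ z in closedBall (0 : E2) 1, fderiv ℝ φ (x + s • z) (c1 + ρ1 • z)‖ ≤
      (‖c1‖ + |ρ1|) * (Real.pi * ((Real.pi * s ^ 2) ^ (-(1 / p)) * gradNorm p φ)) := by
  have : IsFiniteMeasure (volume.restrict (closedBall (0 : E2) 1)) := finB
  obtain ⟨K, hK0, hK⟩ := exists_bound hφ hc
  have hgc : Continuous (fun z => ‖fderiv ℝ φ (x + s • z)‖) :=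
    (continuous_normfd hφ).comp (by fun_prop)
  have hint : Integrable (fun z => ‖fderiv ℝ φ (x + s • z)‖)
      (volume.restrict (closedBall (0 : E2) 1)) := by
    refine (memLp_one_iff_integrable).1 (MemLp.of_bound hgc.aestronglyMeasurable K ?_)
    filter_upwards with z
    rw [norm_norm]
    exact hK _
  calc ‖∫ z in closedBall (0 : E2) 1, fderiv ℝ φ (x + s • z) (c1 + ρ1 • z)‖
      ≤ ∫ z in closedBall (0 : E2) 1, (‖c1‖ + |ρ1|) * ‖fderiv ℝ φ (x + s • z)‖ := by
        apply norm_integral_le_of_norm_le (hint.const_mul _)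
        rw [ae_restrict_iff' measurableSet_closedBall]
        filter_upwards with z hz
        have hz' : ‖z‖ ≤ 1 := by simpa using hz
        calc ‖fderiv ℝ φ (x + s • z) (c1 + ρ1 • z)‖
            ≤ ‖fderiv ℝ φ (x + s • z)‖ * ‖c1 + ρ1 • z‖ := ContinuousLinearMap.le_opNorm _ _
          _ ≤ ‖fderiv ℝ φ (x + s • z)‖ * (‖c1‖ + |ρ1|) := by
              apply mul_le_mul_of_nonneg_left _ (norm_nonneg _)
              calc ‖c1 + ρ1 • z‖ ≤ ‖c1‖ + ‖ρ1 • z‖ := norm_add_le _ _
                _ = ‖c1‖ + |ρ1| * ‖z‖ := by rw [norm_smul, Real.norm_eq_abs]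
                _ ≤ ‖c1‖ + |ρ1| := by nlinarith [abs_nonneg ρ1]
          _ = (‖c1‖ + |ρ1|) * ‖fderiv ℝ φ (x + s • z)‖ := mul_comm _ _
    _ = (‖c1‖ + |ρ1|) * ∫ z in closedBall (0 : E2) 1, ‖fderiv ℝ φ (x + s • z)‖ :=
        integral_const_mul _ _
    _ ≤ _ := mul_le_mul_of_nonneg_left (avg_grad hφ hc hp hs x) (by positivity)

/-- average over a ball -/
noncomputable def ballAvg (φ : E2 → ℝ) (x : E2) (h : ℝ) : ℝ :=
  (∫ z in closedBall (0 : E2) 1, φ (x + h • z)) / Real.pi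

lemma ballAvg_zero (φ : E2 → ℝ) (x : E2) : ballAvg φ x 0 = φ x := by
  unfold ballAvg
  simp only [zero_smul, add_zero, integral_const, smul_eq_mul]
  rw [Measure.real, Measure.restrict_apply_univ]
  have := vol_ball
  rw [Measure.real] at this
  rw [this]
  field_simp

lemma ballAvg_sub_le {φ : E2 → ℝ} (hφ : ContDiff ℝ 1 φ) (hc : HasCompactSupport φ) {p : ℝ}
    (hp : 1 < p) {h : ℝ} (hh : 0 < h) (x y : E2) :
    |ballAvg φ x h - ballAvg φ y h| ≤
      ‖x - y‖ * ((Real.pi * h ^ 2) ^ (-(1 / p)) * gradNorm p φ) := by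
  set ψ : ℝ → ℝ := fun t => (∫ z in closedBall (0 : E2) 1,
    φ (y + t • (x - y) + (h + t * 0) • z)) / Real.pi with hψ
  have hd : ∀ t, HasDerivAt ψ ((∫ z in closedBall (0 : E2) 1,
      fderiv ℝ φ (y + t • (x - y) + (h + t * 0) • z) ((x - y) + (0 : ℝ) • z)) / Real.pi) t := by
    intro t
    exact (hasDerivAt_path hφ hc y (x - y) h 0 t).div_const _
  have h1 : ψ 1 = ballAvg φ x h := by
    simp [hψ, ballAvg]
  have h0 : ψ 0 = ballAvg φ y h := by
    simp [hψ, ballAvg]
  rw [← h1, ← h0]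
  have key := norm_image_sub_le_of_norm_deriv_le_segment_01' (f := ψ)
    (f' := fun t => ((∫ z in closedBall (0 : E2) 1,
      fderiv ℝ φ (y + t • (x - y) + (h + t * 0) • z) ((x - y) + (0 : ℝ) • z)) / Real.pi))
    (C := ‖x - y‖ * ((Real.pi * h ^ 2) ^ (-(1 / p)) * gradNorm p φ))
    (fun t _ => (hd t).hasDerivWithinAt) ?_
  · rwa [Real.norm_eq_abs] at key
  · intro t _
    rw [norm_div, Real.norm_of_nonneg Real.pi_pos.le, div_le_iff₀ Real.pi_pos]
    have := norm_path_deriv_le hφ hc hp (x - y) (y + t • (x - y)) (s := h + t * 0)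
      (by simpa using hh) 0
    rw [abs_zero, add_zero] at this
    refine this.trans (le_of_eq ?_)
    rw [mul_zero, add_zero]
    ring

lemma sub_ballAvg_le {φ : E2 → ℝ} (hφ : ContDiff ℝ 1 φ) (hc : HasCompactSupport φ) {p : ℝ}
    (hp : 2 < p) {h : ℝ} (hh : 0 < h) (x : E2) :
    |ballAvg φ x h - φ x| ≤
      h / (1 - 2 / p) * ((Real.pi * h ^ 2) ^ (-(1 / p)) * gradNorm p φ) := by
  have hp0 : 0 < p := by linarith
  have h2p : 0 < 1 - 2 / p := by
    rw [sub_pos, div_lt_one hp0]; exact hp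
  set ψ : ℝ → ℝ := fun t => (∫ z in closedBall (0 : E2) 1,
    φ (x + t • (0 : E2) + (0 + t * h) • z)) / Real.pi with hψ
  have hd : ∀ t, HasDerivAt ψ ((∫ z in closedBall (0 : E2) 1,
      fderiv ℝ φ (x + t • (0 : E2) + (0 + t * h) • z) ((0 : E2) + h • z)) / Real.pi) t := by
    intro t
    exact (hasDerivAt_path hφ hc x 0 0 h t).div_const _
  have h1 : ψ 1 = ballAvg φ x h := by
    simp [hψ, ballAvg]
  have h0 : ψ 0 = φ x := by
    rw [← ballAvg_zero φ x]
    simp [hψ, ballAvg]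
  set N := gradNorm p φ with hN
  have hN0 : 0 ≤ N := gradNorm_nonneg _ _
  set B : ℝ → ℝ := fun t =>
    h / (1 - 2 / p) * ((Real.pi * h ^ 2) ^ (-(1 / p)) * N) * t ^ (1 - 2 / p) with hB
  have hBd : ∀ t : ℝ, 0 < t → HasDerivAt B (h * ((Real.pi * (t * h) ^ 2) ^ (-(1 / p)) * N)) t := by
    intro t ht
    have := (Real.hasDerivAt_rpow_const (x := t) (p := 1 - 2 / p) (Or.inl ht.ne')).const_mul
      (h / (1 - 2 / p) * ((Real.pi * h ^ 2) ^ (-(1 / p)) * N))
    refine this.congr_deriv ?_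
    have e1 : (Real.pi * (t * h) ^ 2) ^ (-(1 / p)) =
        (Real.pi * h ^ 2) ^ (-(1 / p)) * t ^ (-(2 / p)) := by
      rw [show Real.pi * (t * h) ^ 2 = (Real.pi * h ^ 2) * t ^ 2 by ring,
        Real.mul_rpow (by positivity) (by positivity)]
      congr 1
      rw [← Real.rpow_natCast t 2, ← Real.rpow_mul ht.le]
      congr 1
      push_cast
      ring
    rw [e1, show (1 - 2 / p - 1 : ℝ) = -(2 / p) by ring]
    have hne : (1 - 2 / p) ≠ 0 := h2p.ne'
    generalize 1 - 2 / p = w at hne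
    field_simp
  have hBc : Continuous B := by
    exact continuous_const.mul (continuous_id.rpow_const (fun _ => Or.inr h2p.le))
  have hψd : ∀ t : ℝ, 0 < t → ‖(∫ z in closedBall (0 : E2) 1,
      fderiv ℝ φ (x + t • (0 : E2) + (0 + t * h) • z) ((0 : E2) + h • z)) / Real.pi‖ ≤
      h * ((Real.pi * (t * h) ^ 2) ^ (-(1 / p)) * N) := by
    intro t ht
    rw [norm_div, Real.norm_of_nonneg Real.pi_pos.le, div_le_iff₀ Real.pi_pos]
    have := norm_path_deriv_le hφ hc (by linarith : 1 < p) 0 (x + t • (0 : E2))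
      (s := 0 + t * h) (by positivity) h
    rw [norm_zero, zero_add, abs_of_pos hh, zero_add] at this
    rw [zero_add]
    refine this.trans (le_of_eq ?_)
    ring
  have hψc : Continuous ψ := continuous_iff_continuousAt.2 fun t => (hd t).continuousAt
  have hm1 : MonotoneOn (fun t => B t - ψ t) (Icc 0 1) := by
    apply monotoneOn_of_deriv_nonneg (convex_Icc 0 1) (hBc.sub hψc).continuousOn
    · intro t ht
      rw [interior_Icc] at ht
      exact ((hBd t ht.1).sub (hd t)).differentiableAt.differentiableWithinAt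
    · intro t ht
      rw [interior_Icc] at ht
      have e := ((hBd t ht.1).sub (hd t)).deriv
      have e2 := hψd t ht.1
      rw [Real.norm_eq_abs] at e2
      have e3 := le_abs_self ((∫ z in closedBall (0 : E2) 1,
        fderiv ℝ φ (x + t • (0 : E2) + (0 + t * h) • z) ((0 : E2) + h • z)) / Real.pi)
      rw [e]
      linarith
  have hm2 : MonotoneOn (fun t => B t + ψ t) (Icc 0 1) := by
    apply monotoneOn_of_deriv_nonneg (convex_Icc 0 1) (hBc.add hψc).continuousOn
    · intro t ht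
      rw [interior_Icc] at ht
      exact ((hBd t ht.1).add (hd t)).differentiableAt.differentiableWithinAt
    · intro t ht
      rw [interior_Icc] at ht
      have e := ((hBd t ht.1).add (hd t)).deriv
      have e2 := hψd t ht.1
      rw [Real.norm_eq_abs] at e2
      have e3 := neg_abs_le ((∫ z in closedBall (0 : E2) 1,
        fderiv ℝ φ (x + t • (0 : E2) + (0 + t * h) • z) ((0 : E2) + h • z)) / Real.pi)
      rw [e]
      linarith
  have a1 := hm1 (left_mem_Icc.2 zero_le_one) (right_mem_Icc.2 zero_le_one) zero_le_one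
  have a2 := hm2 (left_mem_Icc.2 zero_le_one) (right_mem_Icc.2 zero_le_one) zero_le_one
  simp only at a1 a2
  have hB0 : B 0 = 0 := by
    simp only [hB]
    rw [Real.zero_rpow h2p.ne', mul_zero]
  have hB1 : B 1 = h / (1 - 2 / p) * ((Real.pi * h ^ 2) ^ (-(1 / p)) * N) := by
    simp only [hB]
    rw [Real.one_rpow, mul_one]
  rw [hB0, hB1, h0, h1] at a1 a2
  rw [abs_le]
  constructor <;> linarith

/-- Morrey type estimate: near-Lipschitz bound -/
theorem near_lipschitz {φ : E2 → ℝ} (hφ : ContDiff ℝ 1 φ) (hc : HasCompactSupport φ) {p : ℝ}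
    (hp : 2 < p) {h : ℝ} (hh : 0 < h) (x y : E2) :
    |φ x - φ y| ≤ (‖x - y‖ + 2 * (h / (1 - 2 / p))) *
      ((Real.pi * h ^ 2) ^ (-(1 / p)) * gradNorm p φ) := by
  have h1 := ballAvg_sub_le hφ hc (by linarith : 1 < p) hh x y
  have h2 := sub_ballAvg_le hφ hc hp hh x
  have h3 := sub_ballAvg_le hφ hc hp hh y
  have : φ x - φ y = -(ballAvg φ x h - φ x) + (ballAvg φ x h - ballAvg φ y h) +
    (ballAvg φ y h - φ y) := by ring
  rw [this]
  refine (abs_add_three _ _ _).trans ?_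
  rw [abs_neg]
  linarith

end Pool.Agent.PLap94
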