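import Pool.Agent.PLap94.Upper
import Pool.Agent.PLap94.Lower

open MeasureTheory Set Metric Filter Topology
open scoped ENNReal ContDiff

namespace Pool.Agent.PLap94

variable {p : ℝ} [hp : Fact (1 < p)]

/-- unnormalised loop -/
noncomputable def loop (θ : ℝ) : PairSpace p := Real.cos θ • Wa + Real.sin θ • Wb

/-- the normalised loop in the sphere -/
noncomputable def nloop (θ : ℝ) : PairSpace p := (‖(loop θ : PairSpace p).1‖)⁻¹ • loop θ

lemma loop_pos (hp3 : 300 ≤ p) (θ : ℝ) : 0 < ‖(loop θ : PairSpace p).1‖ := by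
  apply comb_pos hp3
  by_contra h
  push Not at h
  have := Real.sin_sq_add_cos_sq θ
  rw [h.1, h.2] at this
  norm_num at this

lemma continuous_loop : Continuous (loop : ℝ → PairSpace p) := by
  unfold loop
  fun_prop

lemma continuous_nloop (hp3 : 300 ≤ p) : Continuous (nloop : ℝ → PairSpace p) := by
  unfold nloop
  exact ((continuous_fst.comp continuous_loop).norm.inv₀
    fun θ => (loop_pos hp3 θ).ne').smul continuous_loop

lemma nloop_add_pi (θ : ℝ) : (nloop (θ + Real.pi) : PairSpace p) = -nloop θ := by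
  have h : (loop (θ + Real.pi) : PairSpace p) = -loop θ := by
    unfold loop
    rw [Real.cos_add_pi, Real.sin_add_pi, neg_smul, neg_smul]
    abel
  unfold nloop
  rw [h, Prod.fst_neg, norm_neg, smul_neg]

lemma nloop_periodic : Function.Periodic (nloop : ℝ → PairSpace p) (2 * Real.pi) := by
  intro θ
  rw [show θ + 2 * Real.pi = θ + Real.pi + Real.pi by ring, nloop_add_pi, nloop_add_pi, neg_neg]

lemma nloop_eq (θ : ℝ) : (nloop θ : PairSpace p) =
    ((‖(loop θ : PairSpace p).1‖)⁻¹ * Real.cos θ) • Wa +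
      ((‖(loop θ : PairSpace p).1‖)⁻¹ * Real.sin θ) • Wb := by
  unfold nloop
  rw [mul_smul, mul_smul, ← smul_add]
  rfl

lemma nloop_mem (hp3 : 300 ≤ p) (θ : ℝ) : (nloop θ : PairSpace p) ∈ sphereS p := by
  have hp0 : 0 < p := p_pos
  refine ⟨?_, ?_⟩
  · rw [nloop_eq]
    exact comb_mem_W0 _ _
  · rw [lint_eq]
    have h1 : ‖(nloop θ : PairSpace p).1‖ = 1 := by
      unfold nloop
      rw [Prod.smul_fst, norm_smul, norm_inv, norm_norm, inv_mul_cancel₀ (loop_pos hp3 θ).ne']
    rw [h1, Real.one_rpow, ENNReal.ofReal_one]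

lemma nloop_energy (hp3 : 300 ≤ p) (θ : ℝ) :
    energy p (nloop θ : PairSpace p) ≤ ENNReal.ofReal (3.5703 ^ p) := by
  have hp0 : 0 < p := p_pos
  unfold energy
  rw [lint_eq]
  apply ENNReal.ofReal_le_ofReal
  apply Real.rpow_le_rpow (norm_nonneg _) _ hp0.le
  have h1 : ‖(nloop θ : PairSpace p).1‖ = 1 := by
    unfold nloop
    rw [Prod.smul_fst, norm_smul, norm_inv, norm_norm, inv_mul_cancel₀ (loop_pos hp3 θ).ne']
  have h2 := ratio_bound hp3 ((‖(loop θ : PairSpace p).1‖)⁻¹ * Real.cos θ)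
    ((‖(loop θ : PairSpace p).1‖)⁻¹ * Real.sin θ)
  rw [← nloop_eq, h1, mul_one] at h2
  exact h2

/-- the admissible set for `λ₂` -/
def loopSet (p : ℝ) [Fact (1 < p)] : Set (PairSpace p) := range nloop

lemma two_le_genus (hp3 : 300 ≤ p) : (2 : ℕ∞) ≤ genus (loopSet p) := by
  unfold genus
  refine le_iInf₂ fun m hm => ?_
  by_contra hlt
  have hm1 : m = 1 := by
    have h1 := hm.1
    have h2 : (m : ℕ∞) < 2 := not_le.1 hlt
    have h3 : m < 2 := by exact_mod_cast h2
    omega
  subst hm1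
  obtain ⟨f, hf, hodd, hne⟩ := hm.2
  set g : ℝ → ℝ := fun θ => f (nloop θ) 0 with hg
  have hgc : Continuous g := by
    have h1 : Continuous fun θ : ℝ => f (nloop θ) := by
      rw [← continuousOn_univ]
      exact hf.comp (continuous_nloop hp3).continuousOn (fun θ _ => mem_range_self θ)
    exact (PiLp.continuous_apply 2 _ 0).comp h1
  have hgpi : g Real.pi = -g 0 := by
    have h1 : (nloop Real.pi : PairSpace p) = -nloop 0 := by
      have := nloop_add_pi (p := p) 0
      rwa [zero_add] at this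
    simp only [hg]
    rw [h1, hodd _ (mem_range_self 0)]
    simp
  have hgne : ∀ θ, g θ ≠ 0 := by
    intro θ h0
    apply hne (nloop θ) (mem_range_self θ)
    ext i
    rw [Subsingleton.elim i 0]
    exact h0
  have hconn : IsPreconnected (univ : Set ℝ) := isPreconnected_univ
  rcases lt_or_gt_of_ne (hgne 0) with h | h
  · have h2 : 0 < g Real.pi := by rw [hgpi]; linarith
    obtain ⟨θ, _, hθ⟩ := hconn.intermediate_value (mem_univ 0) (mem_univ Real.pi)
      hgc.continuousOn ⟨h.le, h2.le⟩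
    exact hgne θ hθ
  · have h2 : g Real.pi < 0 := by rw [hgpi]; linarith
    obtain ⟨θ, _, hθ⟩ := hconn.intermediate_value (mem_univ Real.pi) (mem_univ 0)
      hgc.continuousOn ⟨h2.le, h.le⟩
    exact hgne θ hθ

lemma admissible_loopSet (hp3 : 300 ≤ p) : Admissible p 2 (loopSet p) := by
  refine ⟨?_, ?_, ?_, ?_, ?_⟩
  · rintro _ ⟨θ, rfl⟩
    exact nloop_mem hp3 θ
  · unfold loopSet
    rw [← nloop_periodic.image_Icc (by positivity) 0]
    exact isCompact_Icc.image (continuous_nloop hp3)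
  · exact range_nonempty _
  · have key : ∀ w : PairSpace p, w ∈ loopSet p → -w ∈ loopSet p := by
      rintro _ ⟨θ, rfl⟩
      exact ⟨θ + Real.pi, nloop_add_pi θ⟩
    intro w
    refine ⟨key w, fun h => ?_⟩
    have := key _ h
    rwa [neg_neg] at this
  · exact two_le_genus hp3

theorem eigenvalue_two_le (hp3 : 300 ≤ p) :
    eigenvalue 2 p ≤ ENNReal.ofReal (3.5703 ^ p) := by
  unfold eigenvalue
  refine iInf₂_le_of_le (loopSet p) (admissible_loopSet hp3) ?_
  refine iSup₂_le fun w hw => ?_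
  obtain ⟨θ, rfl⟩ := hw
  exact nloop_energy hp3 θ

theorem eigenvalue_two_lt_three (hp3 : 300 ≤ p) : eigenvalue 2 p < eigenvalue 3 p := by
  have hp0 : 0 < p := p_pos
  refine lt_of_le_of_lt (eigenvalue_two_le hp3) (lt_of_lt_of_le ?_ (eigenvalue_three_ge hp3))
  rw [ENNReal.ofReal_lt_ofReal_iff (by positivity)]
  exact Real.rpow_lt_rpow (by norm_num) (by norm_num) hp0

end Pool.Agent.PLap94
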