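import Pool.Agent.PLap94.Bump

open MeasureTheory Set Metric Filter Topology
open scoped ENNReal ContDiff

namespace Pool.Agent.PLap94

variable {p : ℝ} [hp : Fact (1 < p)]

/-- the first bump -/
noncomputable def φa : E2 → ℝ := bump (pt rc rc)
/-- the second bump -/
noncomputable def φb : E2 → ℝ := bump (pt (1 - rc) (1 - rc))

lemma isTest_φa : IsTest φa := isTest_bump (Or.inl rfl) (Or.inl rfl)
lemma isTest_φb : IsTest φb := isTest_bump (Or.inr rfl) (Or.inr rfl)

/-- the combination `s φa + t φb` -/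
noncomputable def comb (s t : ℝ) : E2 → ℝ := fun x => s * φa x + t * φb x

lemma isTest_comb (s t : ℝ) : IsTest (comb s t) := by
  refine ⟨?_, ?_, ?_⟩
  · exact (contDiff_const.mul isTest_φa.1).add (contDiff_const.mul isTest_φb.1)
  · exact (isTest_φa.2.1.mul_left).add (isTest_φb.2.1.mul_left)
  · have h : tsupport (comb s t) ⊆ core (pt rc rc) ∪ core (pt (1 - rc) (1 - rc)) := by
      apply closure_minimal _ ((isClosed_core _).union (isClosed_core _))
      intro x hx
      by_contra hcon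
      rw [mem_union, not_or] at hcon
      apply hx
      have h1 : φa x = 0 := by
        by_contra hne
        exact hcon.1 (support_bump _ hne)
      have h2 : φb x = 0 := by
        by_contra hne
        exact hcon.2 (support_bump _ hne)
      simp [comb, h1, h2]
    exact h.trans (union_subset (core_sub_square (Or.inl rfl) (Or.inl rfl))
      (core_sub_square (Or.inr rfl) (Or.inr rfl)))

lemma φa_or_φb (x : E2) : x ∉ core (pt rc rc) ∨ x ∉ core (pt (1 - rc) (1 - rc)) := by
  by_contra hcon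
  push Not at hcon
  exact cores_disjoint hcon.1 hcon.2

lemma bump_eq_zero {c x : E2} (hx : x ∉ core c) : bump c x = 0 := by
  by_contra hne
  exact hx (support_bump c hne)

lemma fderiv_bump_eq_zero {c x : E2} (hx : x ∉ core c) : fderiv ℝ (bump c) x = 0 := by
  by_contra hne
  exact hx (tsupport_bump c (support_fderiv_subset ℝ (Function.mem_support.2 hne)))

lemma comb_rpow (s t : ℝ) (x : E2) (hp0 : 0 < p) :
    ‖comb s t x‖ ^ p = |s| ^ p * ‖φa x‖ ^ p + |t| ^ p * ‖φb x‖ ^ p := by
  unfold comb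
  rcases φa_or_φb x with h | h
  · have h1 : φa x = 0 := bump_eq_zero h
    rw [h1, mul_zero, zero_add, norm_zero, Real.zero_rpow hp0.ne', mul_zero, zero_add, norm_mul,
      Real.mul_rpow (norm_nonneg _) (norm_nonneg _), Real.norm_eq_abs]
  · have h1 : φb x = 0 := bump_eq_zero h
    rw [h1, mul_zero, add_zero, norm_zero, Real.zero_rpow hp0.ne', mul_zero, add_zero, norm_mul,
      Real.mul_rpow (norm_nonneg _) (norm_nonneg _), Real.norm_eq_abs]

lemma fderiv_comb (s t : ℝ) (x : E2) :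
    fderiv ℝ (comb s t) x = s • fderiv ℝ φa x + t • fderiv ℝ φb x := by
  have h1 : HasFDerivAt φa (fderiv ℝ φa x) x :=
    (isTest_φa.1.differentiable (by simp) x).hasFDerivAt
  have h2 : HasFDerivAt φb (fderiv ℝ φb x) x :=
    (isTest_φb.1.differentiable (by simp) x).hasFDerivAt
  exact ((h1.const_mul s).add (h2.const_mul t)).fderiv

lemma grad_comb (s t : ℝ) (x : E2) :
    gradient (comb s t) x = s • gradient φa x + t • gradient φb x := by
  unfold gradient
  rw [fderiv_comb]
  simp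

lemma grad_comb_rpow (s t : ℝ) (x : E2) (hp0 : 0 < p) :
    ‖gradient (comb s t) x‖ ^ p =
      |s| ^ p * ‖gradient φa x‖ ^ p + |t| ^ p * ‖gradient φb x‖ ^ p := by
  rw [grad_comb]
  rcases φa_or_φb x with h | h
  · have h1 : gradient φa x = 0 := by
      unfold gradient
      rw [show fderiv ℝ φa x = 0 from fderiv_bump_eq_zero h, map_zero]
    rw [h1, smul_zero, zero_add, norm_zero, Real.zero_rpow hp0.ne', mul_zero, zero_add, norm_smul,
      Real.mul_rpow (norm_nonneg _) (norm_nonneg _), Real.norm_eq_abs]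
  · have h1 : gradient φb x = 0 := by
      unfold gradient
      rw [show fderiv ℝ φb x = 0 from fderiv_bump_eq_zero h, map_zero]
    rw [h1, smul_zero, add_zero, norm_zero, Real.zero_rpow hp0.ne', mul_zero, add_zero, norm_smul,
      Real.mul_rpow (norm_nonneg _) (norm_nonneg _), Real.norm_eq_abs]

lemma memLp_test {φ : E2 → ℝ} (hφ : IsTest φ) : MemLp φ (ENNReal.ofReal p) μS := by
  have h : MemLp φ (ENNReal.ofReal p) (volume : Measure E2) :=
    hφ.1.continuous.memLp_of_hasCompactSupport hφ.2.1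
  exact h.mono_measure Measure.restrict_le_self

lemma continuous_gradient {φ : E2 → ℝ} (hφ : IsTest φ) : Continuous (gradient φ) := by
  unfold gradient
  exact (LinearIsometryEquiv.continuous _).comp (hφ.1.continuous_fderiv (by simp))

lemma memLp_grad {φ : E2 → ℝ} (hφ : IsTest φ) : MemLp (gradient φ) (ENNReal.ofReal p) μS := by
  have hc : HasCompactSupport (gradient φ) := by
    have := hφ.2.1.fderiv (𝕜 := ℝ)
    exact this.comp_left (g := fun L => (InnerProductSpace.toDual ℝ E2).symm L) (by simp)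
  have h : MemLp (gradient φ) (ENNReal.ofReal p) (volume : Measure E2) :=
    (continuous_gradient hφ).memLp_of_hasCompactSupport hc
  exact h.mono_measure Measure.restrict_le_self

/-- the element of the Sobolev space given by a test function -/
noncomputable def toPair {φ : E2 → ℝ} (hφ : IsTest φ) : PairSpace p :=
  ((memLp_test hφ).toLp φ, (memLp_grad hφ).toLp (gradient φ))

/-- the pairs for the two bumps -/
noncomputable def Wa : PairSpace p := toPair isTest_φa
noncomputable def Wb : PairSpace p := toPair isTest_φb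

lemma comb_fst (s t : ℝ) : ((s • Wa + t • Wb : PairSpace p)).1 =ᵐ[μS] comb s t := by
  have h1 : (Wa : PairSpace p).1 =ᵐ[μS] φa := MemLp.coeFn_toLp (memLp_test isTest_φa)
  have h2 : (Wb : PairSpace p).1 =ᵐ[μS] φb := MemLp.coeFn_toLp (memLp_test isTest_φb)
  have e : ((s • Wa + t • Wb : PairSpace p)).1 = s • (Wa : PairSpace p).1 + t • (Wb : PairSpace p).1 :=
    rfl
  rw [e]
  filter_upwards [Lp.coeFn_add (s • (Wa : PairSpace p).1) (t • (Wb : PairSpace p).1),
    Lp.coeFn_smul s (Wa : PairSpace p).1, Lp.coeFn_smul t (Wb : PairSpace p).1, h1, h2]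
    with x a1 a2 a3 a4 a5
  rw [a1, Pi.add_apply, a2, a3, Pi.smul_apply, Pi.smul_apply, a4, a5]
  rfl

lemma comb_snd (s t : ℝ) : ((s • Wa + t • Wb : PairSpace p)).2 =ᵐ[μS] gradient (comb s t) := by
  have h1 : (Wa : PairSpace p).2 =ᵐ[μS] gradient φa :=
    MemLp.coeFn_toLp (memLp_grad isTest_φa)
  have h2 : (Wb : PairSpace p).2 =ᵐ[μS] gradient φb :=
    MemLp.coeFn_toLp (memLp_grad isTest_φb)
  have e : ((s • Wa + t • Wb : PairSpace p)).2 = s • (Wa : PairSpace p).2 + t • (Wb : PairSpace p).2 :=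
    rfl
  rw [e]
  filter_upwards [Lp.coeFn_add (s • (Wa : PairSpace p).2) (t • (Wb : PairSpace p).2),
    Lp.coeFn_smul s (Wa : PairSpace p).2, Lp.coeFn_smul t (Wb : PairSpace p).2, h1, h2]
    with x a1 a2 a3 a4 a5
  rw [a1, Pi.add_apply, a2, a3, Pi.smul_apply, Pi.smul_apply, a4, a5, grad_comb]

lemma comb_mem_W0 (s t : ℝ) : (s • Wa + t • Wb : PairSpace p) ∈ W0 p :=
  subset_closure ⟨comb s t, isTest_comb s t, comb_fst s t, comb_snd s t⟩

lemma integrable_test {φ : E2 → ℝ} (hφ : IsTest φ) : Integrable (fun x => ‖φ x‖ ^ p) μS := by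
  have hp0 : 0 < p := p_pos
  have := (memLp_test (p := p) hφ).integrable_norm_rpow (by simpa using hp0) ENNReal.ofReal_ne_top
  rwa [ENNReal.toReal_ofReal hp0.le] at this

lemma integrable_grad {φ : E2 → ℝ} (hφ : IsTest φ) :
    Integrable (fun x => ‖gradient φ x‖ ^ p) μS := by
  have hp0 : 0 < p := p_pos
  have := (memLp_grad (p := p) hφ).integrable_norm_rpow (by simpa using hp0) ENNReal.ofReal_ne_top
  rwa [ENNReal.toReal_ofReal hp0.le] at this

lemma rpow_norm_of_ae_eq {F : Type*} [NormedAddCommGroup F] (w : Lp F (ENNReal.ofReal p) μS)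
    (φ : E2 → F) (h : w =ᵐ[μS] φ) : ‖w‖ ^ p = ∫ x, ‖φ x‖ ^ p ∂μS := by
  have hp0 : 0 < p := p_pos
  rw [norm_of_ae_eq w φ h, ← Real.rpow_mul, one_div, inv_mul_cancel₀ hp0.ne', Real.rpow_one]
  exact integral_nonneg fun x => Real.rpow_nonneg (norm_nonneg _) _

lemma norm_comb_fst (s t : ℝ) : ‖(s • Wa + t • Wb : PairSpace p).1‖ ^ p =
    |s| ^ p * ∫ x, ‖φa x‖ ^ p ∂μS + |t| ^ p * ∫ x, ‖φb x‖ ^ p ∂μS := by
  have hp0 : 0 < p := p_pos
  rw [rpow_norm_of_ae_eq _ _ (comb_fst s t)]
  simp only [fun x => comb_rpow s t x hp0]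
  rw [integral_add ((integrable_test isTest_φa).const_mul _)
    ((integrable_test isTest_φb).const_mul _), integral_const_mul, integral_const_mul]

lemma norm_comb_snd (s t : ℝ) : ‖(s • Wa + t • Wb : PairSpace p).2‖ ^ p =
    |s| ^ p * ∫ x, ‖gradient φa x‖ ^ p ∂μS + |t| ^ p * ∫ x, ‖gradient φb x‖ ^ p ∂μS := by
  have hp0 : 0 < p := p_pos
  rw [rpow_norm_of_ae_eq _ _ (comb_snd s t)]
  simp only [fun x => grad_comb_rpow s t x hp0]
  rw [integral_add ((integrable_grad isTest_φa).const_mul _)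
    ((integrable_grad isTest_φb).const_mul _), integral_const_mul, integral_const_mul]

lemma grad_int_le (c : E2) (hc : IsTest (bump c)) :
    ∫ x, ‖gradient (bump c) x‖ ^ p ∂μS ≤ Lc ^ p := by
  have hp0 : 0 < p := p_pos
  calc ∫ x, ‖gradient (bump c) x‖ ^ p ∂μS ≤ ∫ _, Lc ^ p ∂μS := by
        apply integral_mono (integrable_grad hc) (integrable_const _)
        intro x
        simp only [norm_gradient]
        exact Real.rpow_le_rpow (norm_nonneg _) (norm_fderiv_bump c x) hp0.le
    _ = Lc ^ p := by simp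

lemma small_vol (hp3 : 300 ≤ p) : (0.963 : ℝ) ^ p ≤ 0.0000125 := by
  calc (0.963 : ℝ) ^ p ≤ (0.963 : ℝ) ^ ((300 : ℕ) : ℝ) := by
        apply Real.rpow_le_rpow_of_exponent_ge (by norm_num) (by norm_num)
        push_cast
        exact hp3
    _ = ((0.963 : ℝ) ^ 100) ^ 3 := by rw [Real.rpow_natCast, ← pow_mul]
    _ ≤ (0.02306 : ℝ) ^ 3 := by
        apply pow_le_pow_left₀ (by norm_num)
        norm_num
    _ ≤ 0.0000125 := by norm_num

lemma vol_small_ball (c : E2) :
    (0.0000125 : ℝ) ≤ (volume : Measure E2).real (closedBall c 0.002) := by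
  rw [Measure.real, EuclideanSpace.volume_closedBall_fin_two, ENNReal.toReal_mul,
    ENNReal.toReal_pow, ENNReal.toReal_ofReal (by norm_num), ENNReal.toReal_ofReal Real.pi_pos.le]
  have := Real.pi_gt_d4
  norm_num at this ⊢
  linarith

lemma small_ball_sub {a b : ℝ} (ha : a = rc ∨ a = 1 - rc) (hb : b = rc ∨ b = 1 - rc) :
    closedBall (pt a b) 0.002 ⊆ square := by
  have h1 : (0.29 : ℝ) ≤ rc := by
    unfold rc; have := sqrt2_ub; norm_num at this ⊢; linarith
  have h2 := rc_lt
  norm_num at h1 h2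
  refine Subset.trans (closedBall_subset_closedBall (by norm_num)) ?_ (b := closedBall (pt a b) 0.01)
  intro z hz
  have hz' : ‖z - pt a b‖ ≤ 0.01 := by simpa [dist_eq_norm] using hz
  have h : ∀ i, |z i - pt a b i| ≤ 0.01 := by
    intro i
    have := PiLp.norm_apply_le (z - pt a b) i
    rw [PiLp.sub_apply, Real.norm_eq_abs] at this
    exact this.trans hz'
  have h3 := abs_le.1 (h 0)
  have h4 := abs_le.1 (h 1)
  rw [pt_zero] at h3
  rw [pt_one] at h4
  norm_num at h3 h4
  intro i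
  fin_cases i
  · simp only [Fin.zero_eta]
    rcases ha with rfl | rfl <;> constructor <;> linarith
  · simp only [Fin.mk_one]
    rcases hb with rfl | rfl <;> constructor <;> linarith

lemma bump_int_ge (hp3 : 300 ≤ p) {a b : ℝ} (ha : a = rc ∨ a = 1 - rc)
    (hb : b = rc ∨ b = 1 - rc) :
    (0.956285 : ℝ) ^ p ≤ ∫ x, ‖bump (pt a b) x‖ ^ p ∂μS := by
  have hp0 : 0 < p := p_pos
  have hT := isTest_bump ha hb
  have hsub := small_ball_sub ha hb
  have hμ : μS.real (closedBall (pt a b) 0.002) =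
      (volume : Measure E2).real (closedBall (pt a b) 0.002) := by
    unfold μS
    rw [Measure.real, Measure.real, Measure.restrict_apply measurableSet_closedBall,
      inter_eq_left.2 hsub]
  calc (0.956285 : ℝ) ^ p ≤ (0.99303 * 0.963 : ℝ) ^ p :=
        Real.rpow_le_rpow (by norm_num) (by norm_num) hp0.le
    _ = (0.99303 : ℝ) ^ p * (0.963 : ℝ) ^ p := Real.mul_rpow (by norm_num) (by norm_num)
    _ ≤ (0.99303 : ℝ) ^ p * (volume : Measure E2).real (closedBall (pt a b) 0.002) :=
        mul_le_mul_of_nonneg_left ((small_vol hp3).trans (vol_small_ball _)) (by positivity)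
    _ ≤ ∫ x in closedBall (pt a b) 0.002, ‖bump (pt a b) x‖ ^ p ∂μS := by
        rw [← hμ]
        apply setIntegral_ge_of_const_le_real measurableSet_closedBall (measure_ne_top _ _)
        · intro x hx
          apply Real.rpow_le_rpow (by norm_num) _ hp0.le
          have := bump_lower (c := pt a b) (x := x) (by simpa [dist_eq_norm] using hx)
          rw [Real.norm_eq_abs]
          exact this.trans (le_abs_self _)
        · exact (integrable_test hT).integrableOn
    _ ≤ ∫ x, ‖bump (pt a b) x‖ ^ p ∂μS :=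
        setIntegral_le_integral (integrable_test hT)
          (by filter_upwards with x; exact Real.rpow_nonneg (norm_nonneg _) _)

lemma ratio_bound (hp3 : 300 ≤ p) (s t : ℝ) :
    ‖(s • Wa + t • Wb : PairSpace p).2‖ ≤ 3.5703 * ‖(s • Wa + t • Wb : PairSpace p).1‖ := by
  have hp0 : 0 < p := p_pos
  have h1 := norm_comb_fst (p := p) s t
  have h2 := norm_comb_snd (p := p) s t
  have a1 := bump_int_ge hp3 (a := rc) (b := rc) (Or.inl rfl) (Or.inl rfl)
  have a2 := bump_int_ge hp3 (a := 1 - rc) (b := 1 - rc) (Or.inr rfl) (Or.inr rfl)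
  have b1 := grad_int_le (p := p) (pt rc rc) isTest_φa
  have b2 := grad_int_le (p := p) (pt (1 - rc) (1 - rc)) isTest_φb
  have hs : 0 ≤ |s| ^ p := by positivity
  have ht : 0 ≤ |t| ^ p := by positivity
  have h3 : ‖(s • Wa + t • Wb : PairSpace p).2‖ ^ p ≤ Lc ^ p * (|s| ^ p + |t| ^ p) := by
    rw [h2]
    have c1 := mul_le_mul_of_nonneg_left b1 hs
    have c2 := mul_le_mul_of_nonneg_left b2 ht
    unfold φa φb
    linarith
  have h4 : (0.956285 : ℝ) ^ p * (|s| ^ p + |t| ^ p) ≤
      ‖(s • Wa + t • Wb : PairSpace p).1‖ ^ p := by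
    rw [h1]
    have c1 := mul_le_mul_of_nonneg_left a1 hs
    have c2 := mul_le_mul_of_nonneg_left a2 ht
    unfold φa φb
    linarith
  have h5 : Lc ^ p ≤ (3.5703 : ℝ) ^ p * (0.956285 : ℝ) ^ p := by
    rw [← Real.mul_rpow (by norm_num) (by norm_num)]
    apply Real.rpow_le_rpow Lc_pos.le _ hp0.le
    have := Lc_ub
    norm_num at this ⊢
    linarith
  have h6 : ‖(s • Wa + t • Wb : PairSpace p).2‖ ^ p ≤
      (3.5703 * ‖(s • Wa + t • Wb : PairSpace p).1‖) ^ p := by
    rw [Real.mul_rpow (by norm_num) (norm_nonneg _)]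
    calc ‖(s • Wa + t • Wb : PairSpace p).2‖ ^ p ≤ Lc ^ p * (|s| ^ p + |t| ^ p) := h3
      _ ≤ (3.5703 : ℝ) ^ p * (0.956285 : ℝ) ^ p * (|s| ^ p + |t| ^ p) :=
          mul_le_mul_of_nonneg_right h5 (by positivity)
      _ = (3.5703 : ℝ) ^ p * ((0.956285 : ℝ) ^ p * (|s| ^ p + |t| ^ p)) := by ring
      _ ≤ _ := mul_le_mul_of_nonneg_left h4 (by positivity)
  exact (Real.rpow_le_rpow_iff (norm_nonneg _) (by positivity) hp0).1 h6

lemma comb_pos (hp3 : 300 ≤ p) {s t : ℝ} (h : s ≠ 0 ∨ t ≠ 0) :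
    0 < ‖(s • Wa + t • Wb : PairSpace p).1‖ := by
  have hp0 : 0 < p := p_pos
  have h1 := norm_comb_fst (p := p) s t
  have a1 := bump_int_ge hp3 (a := rc) (b := rc) (Or.inl rfl) (Or.inl rfl)
  have a2 := bump_int_ge hp3 (a := 1 - rc) (b := 1 - rc) (Or.inr rfl) (Or.inr rfl)
  have h0 : (0 : ℝ) < 0.956285 ^ p := by positivity
  have c1 : 0 < ∫ x, ‖φa x‖ ^ p ∂μS := lt_of_lt_of_le h0 a1
  have c2 : 0 < ∫ x, ‖φb x‖ ^ p ∂μS := lt_of_lt_of_le h0 a2
  have hpos : 0 < ‖(s • Wa + t • Wb : PairSpace p).1‖ ^ p := by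
    rw [h1]
    rcases h with h | h
    · have : 0 < |s| := abs_pos.2 h
      positivity
    · have : 0 < |t| := abs_pos.2 h
      positivity
  by_contra hcon
  have : ‖(s • Wa + t • Wb : PairSpace p).1‖ = 0 := le_antisymm (not_lt.1 hcon) (norm_nonneg _)
  rw [this, Real.zero_rpow hp0.ne'] at hpos
  exact lt_irrefl _ hpos

end Pool.Agent.PLap94
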